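import Pool.Agent.Y814.FK.Bas

/-!
Job FK-RD (helper814), third part: the terms with a small variable in each pair.
-/

set_option autoImplicit false

open Finset MeasureTheory Filter
open scoped Classical

namespace Pool.Agent.Y814.FK

open Pool.Agent.Y755.FK

noncomputable section

theorem LR_ext (c : ℕ → ℝ) (w : ℝ) (M : ℕ) (h : ⌊Real.exp w⌋₊ ≤ M) :
    LR c w = ∑ k ∈ Icc 1 M, c k / k * φ (w - Real.log k) := by
  unfold LR
  apply Finset.sum_subset (Finset.Icc_subset_Icc_right h)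
  intro k hk hk'
  rw [Finset.mem_Icc] at hk hk'
  have h1 : ⌊Real.exp w⌋₊ < k := by omega
  have h2 : Real.exp w < k := Nat.lt_of_floor_lt h1
  have h3 : w < Real.log k := by
    rw [← Real.log_exp w]
    exact Real.log_lt_log (Real.exp_pos w) h2
  rw [phi_neg (by linarith), mul_zero]

theorem floor_le' (u : ℝ) (n : ℕ) (hn : 1 ≤ n) :
    ⌊Real.exp (u - Real.log n)⌋₊ ≤ ⌊Real.exp u⌋₊ := by
  apply Nat.floor_mono
  apply Real.exp_le_exp.2
  have : 0 ≤ Real.log n := Real.log_nonneg (by exact_mod_cast hn)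
  linarith

/-- factor of the fixed variables -/
def cm (n : ℕ) : ℝ := (1 / 2 : ℝ) ^ om n / n

theorem G_mul (u : ℝ) (n v : ℕ) (hn : osf n) (hv : 1 ≤ v) :
    G u (n * v) = cm n * ((if osf v ∧ Nat.Coprime v n then (1 / 2 : ℝ) ^ om v else 0) / v *
      φ (u - Real.log n - Real.log v)) := by
  have hn0 : (n : ℝ) ≠ 0 := by exact_mod_cast (by have := osf_pos hn; omega : n ≠ 0)
  have hv0 : (v : ℝ) ≠ 0 := by exact_mod_cast (by omega : v ≠ 0)
  unfold G cm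
  by_cases h : osf (n * v)
  · have h1 := h
    rw [osf_mul] at h1
    obtain ⟨h2, -, h4⟩ := h1
    rw [if_pos h, if_pos ⟨h4, h2.symm⟩, om_mul h2, pow_add]
    push_cast
    rw [Real.log_mul hn0 hv0, show u - (Real.log n + Real.log v) = u - Real.log n - Real.log v
      by ring]
    field_simp
  · rw [if_neg h, if_neg]
    · ring
    · rintro ⟨h4, h2⟩
      exact h (osf_mul.2 ⟨h2.symm, hn, h4⟩)

theorem G_not (u : ℝ) (n v : ℕ) (hn : ¬ osf n) : G u (n * v) = 0 := by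
  unfold G
  rw [if_neg]
  intro h
  rw [osf_mul] at h
  exact hn h.2.1

theorem idS (u : ℝ) (D : ℤ) (n : ℕ) (hn : osf n) :
    ∑ v ∈ Icc 1 ⌊Real.exp u⌋₊, G u (n * v) * J D v =
      cm n * LR (cs1 D n) (u - Real.log n) := by
  rw [LR_ext _ _ _ (floor_le' u n (osf_pos hn)), Finset.mul_sum]
  refine Finset.sum_congr rfl fun v hv => ?_
  rw [Finset.mem_Icc] at hv
  rw [G_mul u n v hn hv.1]
  unfold cs1
  split_ifs
  · ring
  · ring

theorem idD (u : ℝ) (D D' : ℤ) (n : ℕ) (hn : osf n) :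
    ∑ v ∈ Icc 1 ⌊Real.exp u⌋₊, ∑ v' ∈ Icc 1 ⌊Real.exp u⌋₊,
      G u (n * (v * v')) * (J D v * J D' v') =
      cm n * LR (cs2 D D' n) (u - Real.log n) := by
  have hn1 := osf_pos hn
  rw [← divsum ⌊Real.exp u⌋₊ (fun k => G u (n * k)) (fun k hk => G_gt (lt_of_lt_of_le hk
    (Nat.le_mul_of_pos_left k (by omega)))) (fun a b => J D a * J D' b)]
  rw [LR_ext _ _ _ (floor_le' u n (osf_pos hn)), Finset.mul_sum]
  refine Finset.sum_congr rfl fun v hv => ?_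
  rw [Finset.mem_Icc] at hv
  rw [G_mul u n v hn hv.1]
  unfold cs2
  split_ifs
  · ring
  · ring

/-- the bounds for small moduli -/
def SWb (C : ℝ) (A : ℕ) : Prop := ∀ (u : ℝ) (n : ℕ) (D D' : ℤ), 1 ≤ u → 1 ≤ n →
  Squarefree D → Squarefree D' → D ≠ 1 → D' ≠ 1 → |(D : ℝ)| ≤ u ^ A → |(D' : ℝ)| ≤ u ^ A →
  |LR (cs1 D n) u| ≤ C * 2 ^ om n / u ^ A ∧ |LR (cs2 D D' n) u| ≤ C * 2 ^ om n / u ^ A

theorem cm_bd {C : ℝ} (hC : 0 ≤ C) (A n : ℕ) (hn : 1 ≤ n) (u w L : ℝ) (hu : 0 < u) (hw : u ≤ w)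
    (hL : |L| ≤ C * 2 ^ om n / w ^ A) : |cm n * L| ≤ C / u ^ A := by
  have h0 : (0 : ℝ) ≤ cm n := by
    unfold cm
    positivity
  rw [abs_mul, abs_of_nonneg h0]
  have hn0 : (1 : ℝ) ≤ n := by exact_mod_cast hn
  have hw0 : 0 < w := lt_of_lt_of_le hu hw
  calc cm n * |L| ≤ cm n * (C * 2 ^ om n / w ^ A) := mul_le_mul_of_nonneg_left hL h0
    _ = C / w ^ A * (1 / n) := by
        unfold cm
        have h1 : (1 / 2 : ℝ) ^ om n * 2 ^ om n = 1 := by
          rw [← mul_pow]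
          norm_num
        calc (1 / 2 : ℝ) ^ om n / n * (C * 2 ^ om n / w ^ A) =
              ((1 / 2 : ℝ) ^ om n * 2 ^ om n) * (C / w ^ A * (1 / n)) := by ring
          _ = _ := by rw [h1, one_mul]
    _ ≤ C / w ^ A * 1 := by
        apply mul_le_mul_of_nonneg_left _ (by positivity)
        rw [div_le_one (by linarith)]
        exact hn0
    _ ≤ C / u ^ A := by
        rw [mul_one]
        apply div_le_div_of_nonneg_left hC (by positivity)
        exact pow_le_pow_left₀ hu.le hw A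

theorem log_half (u : ℝ) (n : ℕ) (hn : 1 ≤ n) (h : (n : ℝ) ≤ Real.exp (u / 2)) :
    u / 2 ≤ u - Real.log n := by
  have hn0 : (0 : ℝ) < n := by exact_mod_cast hn
  have : Real.log n ≤ u / 2 := by
    rw [Real.log_le_iff_le_exp hn0]
    exact h
  linarith

theorem in1 {C : ℝ} {A : ℕ} (hC : 0 ≤ C) (hs : SWb C A) (u : ℝ) (hu : 2 ≤ u) (D : ℤ) (n : ℕ)
    (hn : 1 ≤ n) (hnu : (n : ℝ) ≤ Real.exp (u / 2)) (hD : Squarefree D) (hD1 : D ≠ 1)
    (hDA : |(D : ℝ)| ≤ (u / 2) ^ A) :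
    |∑ v ∈ Icc 1 ⌊Real.exp u⌋₊, G u (n * v) * J D v| ≤ C / (u / 2) ^ A := by
  by_cases h : osf n
  · rw [idS u D n h]
    have h1 := log_half u n hn hnu
    have h2 : |(D : ℝ)| ≤ (u - Real.log n) ^ A :=
      hDA.trans (pow_le_pow_left₀ (by linarith) h1 A)
    exact cm_bd hC A n hn (u / 2) _ _ (by linarith) h1
      (hs _ n D D (by linarith) hn hD hD hD1 hD1 h2 h2).1
  · rw [Finset.sum_eq_zero]
    · rw [abs_zero]
      positivity
    · intro v _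
      rw [G_not u n v h, zero_mul]

theorem in2 {C : ℝ} {A : ℕ} (hC : 0 ≤ C) (hs : SWb C A) (u : ℝ) (hu : 2 ≤ u) (D D' : ℤ) (n : ℕ)
    (hn : 1 ≤ n) (hnu : (n : ℝ) ≤ Real.exp (u / 2)) (hD : Squarefree D) (hD1 : D ≠ 1)
    (hDA : |(D : ℝ)| ≤ (u / 2) ^ A) (hD' : Squarefree D') (hD1' : D' ≠ 1)
    (hDA' : |(D' : ℝ)| ≤ (u / 2) ^ A) :
    |∑ v ∈ Icc 1 ⌊Real.exp u⌋₊, ∑ v' ∈ Icc 1 ⌊Real.exp u⌋₊,
      G u (n * (v * v')) * (J D v * J D' v')| ≤ C / (u / 2) ^ A := by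
  by_cases h : osf n
  · rw [idD u D D' n h]
    have h1 := log_half u n hn hnu
    have h2 : |(D : ℝ)| ≤ (u - Real.log n) ^ A :=
      hDA.trans (pow_le_pow_left₀ (by linarith) h1 A)
    have h2' : |(D' : ℝ)| ≤ (u - Real.log n) ^ A :=
      hDA'.trans (pow_le_pow_left₀ (by linarith) h1 A)
    exact cm_bd hC A n hn (u / 2) _ _ (by linarith) h1
      (hs _ n D D' (by linarith) hn hD hD' hD1 hD1' h2 h2').2
  · rw [Finset.sum_eq_zero]
    · rw [abs_zero]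
      positivity
    · intro v _
      apply Finset.sum_eq_zero
      intro v' _
      rw [G_not u n _ h, zero_mul]

theorem exp1 (M : ℕ) (hM : 1 ≤ M) (h : ℕ → ℝ) (b : ℝ) :
    ∑ v ∈ Icc 1 M, h v * (1 - if v = 1 then b else 0) = ∑ v ∈ Icc 1 M, h v - b * h 1 := by
  have h1 : ∑ v ∈ Icc 1 M, h v * (if v = 1 then b else 0) = b * h 1 := by
    rw [Finset.sum_eq_single 1]
    · rw [if_pos rfl]
      ring
    · intro v _ hv
      rw [if_neg hv, mul_zero]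
    · intro h2
      exact absurd (Finset.mem_Icc.2 ⟨le_refl _, hM⟩) h2
  rw [← h1, ← Finset.sum_sub_distrib]
  refine Finset.sum_congr rfl fun v _ => ?_
  ring

theorem exp2 (M : ℕ) (hM : 1 ≤ M) (T : ℕ → ℕ → ℝ) (b b' : ℝ) :
    ∑ v ∈ Icc 1 M, ∑ v' ∈ Icc 1 M,
      T v v' * ((1 - if v = 1 then b else 0) * (1 - if v' = 1 then b' else 0)) =
      ∑ v ∈ Icc 1 M, ∑ v' ∈ Icc 1 M, T v v' - b * ∑ v' ∈ Icc 1 M, T 1 v' -
        b' * ∑ v ∈ Icc 1 M, T v 1 + b * b' * T 1 1 := by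
  have h1 : ∀ v ∈ Icc 1 M, ∑ v' ∈ Icc 1 M,
      T v v' * ((1 - if v = 1 then b else 0) * (1 - if v' = 1 then b' else 0)) =
      (∑ v' ∈ Icc 1 M, T v v' - b' * T v 1) * (1 - if v = 1 then b else 0) := by
    intro v _
    rw [← exp1 M hM (T v) b', Finset.sum_mul]
    refine Finset.sum_congr rfl fun v' _ => ?_
    ring
  rw [Finset.sum_congr rfl h1, exp1 M hM (fun v => ∑ v' ∈ Icc 1 M, T v v' - b' * T v 1) b,
    Finset.sum_sub_distrib, ← Finset.mul_sum]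
  ring

/-- the form of the term of a pair with one small variable -/
def Md (P : ℕ → ℕ → ℝ) : Prop := ∃ (κ : ℕ → ℝ) (D : ℕ → ℤ) (b : ℝ), (b = 0 ∨ b = 1) ∧
  (∀ s, |κ s| ≤ 1) ∧
  (∀ s, osf s → κ s ≠ 0 → Squarefree (D s) ∧ |(D s : ℝ)| ≤ 2 * s ∧ D s ≠ 1) ∧
  ∀ s v, osf s → osf v → P s v = κ s * (J (D s) v * (1 - if v = 1 then b else 0))

theorem KK_abs {g : ℤ} (hg : g ∈ KK) : g.natAbs = 1 ∨ g.natAbs = 2 := by
  simp only [KK, Finset.mem_insert, Finset.mem_singleton] at hg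
  rcases hg with h | h | h | h <;> subst h <;> decide

theorem sqf (g : ℤ) (s : ℕ) (hg : g.natAbs = 1 ∨ g.natAbs = 2) (hs : osf s) :
    Squarefree (g * s) := by
  rw [← Int.squarefree_natAbs, Int.natAbs_mul, Int.natAbs_natCast]
  rcases hg with h | h
  · rw [h, one_mul]
    exact hs.2
  · rw [h, Nat.squarefree_mul_iff]
    exact ⟨Nat.coprime_two_left.2 hs.1, Nat.prime_two.prime.squarefree, hs.2⟩

theorem gabs (g : ℤ) (s : ℕ) (hg : g.natAbs = 1 ∨ g.natAbs = 2) :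
    |((g * s : ℤ) : ℝ)| ≤ 2 * s := by
  have h1 : |((g * s : ℤ) : ℝ)| = (g.natAbs : ℝ) * s := by
    push_cast
    rw [abs_mul, Nat.abs_cast, Nat.cast_natAbs, Int.cast_abs]
  rw [h1]
  have h2 : (g.natAbs : ℝ) ≤ 2 := by
    rcases hg with h | h <;> rw [h] <;> norm_num
  exact mul_le_mul_of_nonneg_right h2 (Nat.cast_nonneg s)

theorem gone (g : ℤ) (s : ℕ) (h : g * s = 1) : s = 1 ∧ g = 1 := by
  have h1 : g.natAbs * s = 1 := by
    have := congrArg Int.natAbs h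
    rwa [Int.natAbs_mul, Int.natAbs_natCast] at this
  have h2 : s = 1 := Nat.dvd_one.1 (Dvd.intro_left _ h1)
  subst h2
  simpa using h

theorem neg_one_J (s : ℕ) : jacobiSym (-1) s = 1 ∨ jacobiSym (-1) s = -1 := by
  apply jacobiSym.eq_one_or_neg_one
  simp

theorem recip {v s : ℕ} (hv : Odd v) (hs : Odd s) : J (v : ℤ) s = J (jacobiSym (-1) s * s) v := by
  unfold J
  rw [jacobiSym.quadratic_reciprocity' hv hs, jacobiSym.mul_left]
  unfold qrSign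
  rw [jacobiSym.at_neg_one hs]

theorem J_mul (a b : ℤ) (n : ℕ) : J (a * b) n = J a n * J b n := by
  unfold J
  rw [jacobiSym.mul_left]
  push_cast
  rfl

theorem J_one_right (a : ℤ) : J a 1 = 1 := by
  unfold J
  simp

theorem MdX (e f : ℤ) (hf : f ∈ KK) : Md (Pf e f) := by
  refine ⟨fun s => if s = 1 ∧ f = 1 then 0 else J e s, fun s => f * s, if e = 1 then 1 else 0,
    ?_, ?_, ?_, ?_⟩
  · split_ifs <;> simp
  · intro s
    simp only
    split_ifs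
    · simp
    · exact J_abs e s
  · intro s hs hκ
    refine ⟨sqf f s (KK_abs hf) hs, gabs f s (KK_abs hf), fun h => ?_⟩
    apply hκ
    simp only
    rw [if_pos (gone f s h)]
  · intro s v hs hv
    simp only
    unfold Pf
    by_cases h1 : s = 1 ∧ f = 1
    · rw [if_pos h1, if_neg (fun h => h.1 h1)]
      ring
    · rw [if_neg h1]
      by_cases h2 : v = 1
      · rw [if_pos h2]
        by_cases h3 : e = 1
        · rw [if_pos h3, if_neg (fun h => h.2 ⟨h2, h3⟩)]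
          ring
        · rw [if_neg h3, if_pos ⟨h1, fun h => h3 h.2⟩, J_mul]
          ring
      · rw [if_neg h2, if_pos ⟨h1, fun h => h2 h.1⟩, J_mul]
        ring

theorem MdY (e f : ℤ) (he : e ∈ KK) : Md (fun s v => Pf e f v s) := by
  have hj : ∀ s, (e * jacobiSym (-1) s).natAbs = 1 ∨ (e * jacobiSym (-1) s).natAbs = 2 := by
    intro s
    rw [Int.natAbs_mul]
    have h1 : (jacobiSym (-1) s).natAbs = 1 := by
      rcases neg_one_J s with h | h <;> rw [h] <;> decide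
    rw [h1, mul_one]
    exact KK_abs he
  refine ⟨fun s => if s = 1 ∧ e = 1 then 0 else J f s, fun s => (e * jacobiSym (-1) s) * s,
    if f = 1 then 1 else 0, ?_, ?_, ?_, ?_⟩
  · split_ifs <;> simp
  · intro s
    simp only
    split_ifs
    · simp
    · exact J_abs f s
  · intro s hs hκ
    refine ⟨sqf _ s (hj s) hs, gabs _ s (hj s), fun h => ?_⟩
    apply hκ
    simp only
    obtain ⟨h1, h2⟩ := gone _ s h
    subst h1
    rw [jacobiSym.one_right, mul_one] at h2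
    rw [if_pos ⟨rfl, h2⟩]
  · intro s v hs hv
    simp only
    have hr : J (e * jacobiSym (-1) s * s) v = J e v * J (v : ℤ) s := by
      rw [recip hv.1 hs.1, ← J_mul, mul_assoc]
    unfold Pf
    by_cases h1 : s = 1 ∧ e = 1
    · rw [if_pos h1, if_neg (fun h => h.2 h1)]
      ring
    · rw [if_neg h1]
      by_cases h2 : v = 1
      · rw [if_pos h2]
        by_cases h3 : f = 1
        · rw [if_pos h3, if_neg (fun h => h.1 ⟨h2, h3⟩)]
          ring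
        · rw [if_neg h3, if_pos ⟨fun h => h3 h.2, h1⟩, hr]
          ring
      · rw [if_neg h2, if_pos ⟨fun h => h2 h.1, h1⟩, hr]
        ring

/-- the conditions on the parameters -/
structure Par (A z : ℕ) (u : ℝ) : Prop where
  hz : 1 ≤ z
  hu : 2 ≤ u
  h1 : ((z : ℝ)) ^ 4 < Real.exp (u - 1)
  h2 : ((z : ℝ)) ^ 3 ≤ Real.exp (u / 2)
  h3 : 2 * (z : ℝ) ≤ (u / 2) ^ A

theorem Mone {u : ℝ} (hu : 2 ≤ u) : 1 ≤ ⌊Real.exp u⌋₊ :=
  Nat.one_le_floor_iff _ |>.2 (Real.one_le_exp (by linarith))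

/-- both pairs have a free variable -/
theorem two {C : ℝ} {A : ℕ} (hC : 0 ≤ C) (hs : SWb C A) {P P' : ℕ → ℕ → ℝ} (hP : Md P)
    (hP' : Md P') {u : ℝ} {z : ℕ} (hp : Par A z u) :
    |∑ q ∈ Icc 1 z ×ˢ Icc 1 ⌊Real.exp u⌋₊, ∑ q' ∈ Icc 1 z ×ˢ Icc 1 ⌊Real.exp u⌋₊,
      G u (q.1 * q.2 * (q'.1 * q'.2)) * (P q.1 q.2 * P' q'.1 q'.2)| ≤
      (z : ℝ) ^ 2 * (3 * (C / (u / 2) ^ A)) := by
  obtain ⟨κ, D, b, hb, hκ, hD, hPe⟩ := hP
  obtain ⟨κ', D', b', hb', hκ', hD', hPe'⟩ := hP'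
  obtain ⟨hz, hu, hp1, hp2, hp3⟩ := hp
  have hz1 : (1 : ℝ) ≤ z := by exact_mod_cast hz
  obtain ⟨M, hM⟩ : ∃ M, M = ⌊Real.exp u⌋₊ := ⟨_, rfl⟩
  have hM1 : 1 ≤ M := hM ▸ Mone hu
  obtain ⟨B, hB⟩ : ∃ B, B = C / (u / 2) ^ A := ⟨_, rfl⟩
  have hB0 : 0 ≤ B := by
    rw [hB]
    positivity
  have h1 : ∑ q ∈ Icc 1 z ×ˢ Icc 1 M, ∑ q' ∈ Icc 1 z ×ˢ Icc 1 M,
      G u (q.1 * q.2 * (q'.1 * q'.2)) * (P q.1 q.2 * P' q'.1 q'.2) =
      ∑ s ∈ Icc 1 z, ∑ s' ∈ Icc 1 z, ∑ v ∈ Icc 1 M, ∑ v' ∈ Icc 1 M,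
        G u (s * v * (s' * v')) * (P s v * P' s' v') := by
    rw [Finset.sum_product]
    refine Finset.sum_congr rfl fun s _ => ?_
    rw [Finset.sum_comm]
    refine (Finset.sum_product _ _ _).trans ?_
    refine Finset.sum_congr rfl fun s' _ => ?_
    rw [Finset.sum_comm]
  rw [← hM, h1, ← hB]
  have h2 : ∀ s ∈ Icc 1 z, ∀ s' ∈ Icc 1 z, |∑ v ∈ Icc 1 M, ∑ v' ∈ Icc 1 M,
        G u (s * v * (s' * v')) * (P s v * P' s' v')| ≤ 3 * B := by
    intro s hs1 s' hs1'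
    rw [Finset.mem_Icc] at hs1 hs1'
    have hn1 : 1 ≤ s * s' := Nat.mul_pos hs1.1 hs1'.1
    have hsz : (s : ℝ) ≤ z := by exact_mod_cast hs1.2
    have hsz' : (s' : ℝ) ≤ z := by exact_mod_cast hs1'.2
    have hs0 : (0 : ℝ) ≤ s := Nat.cast_nonneg s
    have hs0' : (0 : ℝ) ≤ s' := Nat.cast_nonneg s'
    have hn2 : ((s * s' : ℕ) : ℝ) ≤ (z : ℝ) ^ 2 := by
      push_cast
      nlinarith
    have hz23 : (z : ℝ) ^ 2 ≤ z ^ 3 := pow_le_pow_right₀ hz1 (by norm_num)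
    have hz24 : (z : ℝ) ^ 2 ≤ z ^ 4 := pow_le_pow_right₀ hz1 (by norm_num)
    by_cases hn : osf (s * s')
    swap
    · rw [Finset.sum_eq_zero]
      · rw [abs_zero]
        positivity
      · intro v _
        apply Finset.sum_eq_zero
        intro v' _
        rw [show s * v * (s' * v') = s * s' * (v * v') by ring, G_not u _ _ hn, zero_mul]
    have hn' := hn
    rw [osf_mul] at hn'
    obtain ⟨-, ho, ho'⟩ := hn'
    have h3 : ∑ v ∈ Icc 1 M, ∑ v' ∈ Icc 1 M, G u (s * v * (s' * v')) * (P s v * P' s' v') =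
        κ s * κ' s' * ∑ v ∈ Icc 1 M, ∑ v' ∈ Icc 1 M,
          (G u (s * s' * (v * v')) * (J (D s) v * J (D' s') v')) *
            ((1 - if v = 1 then b else 0) * (1 - if v' = 1 then b' else 0)) := by
      rw [Finset.mul_sum]
      refine Finset.sum_congr rfl fun v _ => ?_
      rw [Finset.mul_sum]
      refine Finset.sum_congr rfl fun v' _ => ?_
      rw [show s * v * (s' * v') = s * s' * (v * v') by ring]
      by_cases h4 : osf (s * s' * (v * v'))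
      · have h5 := h4
        rw [osf_mul, osf_mul (a := v)] at h5
        rw [hPe s v ho h5.2.2.2.1, hPe' s' v' ho' h5.2.2.2.2]
        ring
      · have h5 : G u (s * s' * (v * v')) = 0 := by
          unfold G
          rw [if_neg h4]
        rw [h5]
        ring
    rw [h3]
    by_cases hk : κ s = 0
    · rw [hk, zero_mul, zero_mul, abs_zero]
      positivity
    by_cases hk' : κ' s' = 0
    · rw [hk', mul_zero, zero_mul, abs_zero]
      positivity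
    obtain ⟨d1, d2, d3⟩ := hD s ho hk
    obtain ⟨d1', d2', d3'⟩ := hD' s' ho' hk'
    have d4 : |(D s : ℝ)| ≤ (u / 2) ^ A := by linarith
    have d4' : |(D' s' : ℝ)| ≤ (u / 2) ^ A := by linarith
    have hnu : ((s * s' : ℕ) : ℝ) ≤ Real.exp (u / 2) := by linarith
    have e2 := in2 hC hs u hu (D s) (D' s') (s * s') hn1 hnu d1 d3 d4 d1' d3' d4'
    have e1 := in1 hC hs u hu (D s) (s * s') hn1 hnu d1 d3 d4
    have e1' := in1 hC hs u hu (D' s') (s * s') hn1 hnu d1' d3' d4'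
    have e0 : G u (s * s') = 0 := G_small (by linarith)
    rw [← hM, ← hB] at e2 e1 e1'
    rw [exp2 M hM1 (fun v v' => G u (s * s' * (v * v')) * (J (D s) v * J (D' s') v')) b b']
    have h6 : ∑ v' ∈ Icc 1 M, G u (s * s' * (1 * v')) * (J (D s) 1 * J (D' s') v') =
        ∑ v' ∈ Icc 1 M, G u (s * s' * v') * J (D' s') v' := by
      refine Finset.sum_congr rfl fun v' _ => ?_
      rw [one_mul, J_one_right, one_mul]
    have h7 : ∑ v ∈ Icc 1 M, G u (s * s' * (v * 1)) * (J (D s) v * J (D' s') 1) =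
        ∑ v ∈ Icc 1 M, G u (s * s' * v) * J (D s) v := by
      refine Finset.sum_congr rfl fun v' _ => ?_
      rw [mul_one, J_one_right, mul_one]
    have h8 : G u (s * s' * (1 * 1)) * (J (D s) 1 * J (D' s') 1) = 0 := by
      rw [mul_one, mul_one, e0, zero_mul]
    rw [h6, h7, h8, mul_zero, add_zero, abs_mul]
    have hκκ : |κ s * κ' s'| ≤ 1 := by
      rw [abs_mul]
      exact mul_le_one₀ (hκ s) (abs_nonneg _) (hκ' s')
    have hbb : |b| ≤ 1 := by rcases hb with h | h <;> rw [h] <;> norm_num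
    have hbb' : |b'| ≤ 1 := by rcases hb' with h | h <;> rw [h] <;> norm_num
    have h9 : |b * ∑ v' ∈ Icc 1 M, G u (s * s' * v') * J (D' s') v'| ≤ B := by
      rw [abs_mul]
      calc _ ≤ 1 * B := mul_le_mul hbb e1' (abs_nonneg _) zero_le_one
        _ = B := one_mul B
    have h10 : |b' * ∑ v ∈ Icc 1 M, G u (s * s' * v) * J (D s) v| ≤ B := by
      rw [abs_mul]
      calc _ ≤ 1 * B := mul_le_mul hbb' e1 (abs_nonneg _) zero_le_one
        _ = B := one_mul B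
    calc _ ≤ 1 * (3 * B) := by
          apply mul_le_mul hκκ _ (abs_nonneg _) zero_le_one
          rw [abs_le] at *
          constructor <;> linarith
      _ = 3 * B := one_mul _
  refine (Finset.abs_sum_le_sum_abs _ _).trans ?_
  have h3 : ∀ s ∈ Icc 1 z, |∑ s' ∈ Icc 1 z, ∑ v ∈ Icc 1 M, ∑ v' ∈ Icc 1 M,
        G u (s * v * (s' * v')) * (P s v * P' s' v')| ≤ z * (3 * B) := by
    intro s hs1
    refine (Finset.abs_sum_le_sum_abs _ _).trans ?_
    refine (Finset.sum_le_sum fun s' hs' => h2 s hs1 s' hs').trans ?_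
    rw [Finset.sum_const, Nat.card_Icc, nsmul_eq_mul, Nat.add_sub_cancel]
  refine (Finset.sum_le_sum h3).trans ?_
  rw [Finset.sum_const, Nat.card_Icc, nsmul_eq_mul, Nat.add_sub_cancel]
  apply le_of_eq
  ring

/-- one pair has a free variable -/
theorem one {C : ℝ} {A : ℕ} (hC : 0 ≤ C) (hs : SWb C A) {P Q : ℕ → ℕ → ℝ} (hP : Md P)
    (hQ : ∀ x y, |Q x y| ≤ 1) {u : ℝ} {z : ℕ} (hp : Par A z u) :
    |∑ q ∈ Icc 1 z ×ˢ Icc 1 ⌊Real.exp u⌋₊, ∑ q' ∈ Icc 1 z ×ˢ Icc 1 z,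
      G u (q.1 * q.2 * (q'.1 * q'.2)) * (P q.1 q.2 * Q q'.1 q'.2)| ≤
      (z : ℝ) ^ 3 * (C / (u / 2) ^ A) := by
  obtain ⟨κ, D, b, hb, hκ, hD, hPe⟩ := hP
  obtain ⟨hz, hu, hp1, hp2, hp3⟩ := hp
  have hz1 : (1 : ℝ) ≤ z := by exact_mod_cast hz
  obtain ⟨M, hM⟩ : ∃ M, M = ⌊Real.exp u⌋₊ := ⟨_, rfl⟩
  have hM1 : 1 ≤ M := hM ▸ Mone hu
  obtain ⟨B, hB⟩ : ∃ B, B = C / (u / 2) ^ A := ⟨_, rfl⟩
  have hB0 : 0 ≤ B := by
    rw [hB]
    positivity
  have h1 : ∑ q ∈ Icc 1 z ×ˢ Icc 1 M, ∑ q' ∈ Icc 1 z ×ˢ Icc 1 z,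
      G u (q.1 * q.2 * (q'.1 * q'.2)) * (P q.1 q.2 * Q q'.1 q'.2) =
      ∑ s ∈ Icc 1 z, ∑ q' ∈ Icc 1 z ×ˢ Icc 1 z, ∑ v ∈ Icc 1 M,
        G u (s * v * (q'.1 * q'.2)) * (P s v * Q q'.1 q'.2) := by
    rw [Finset.sum_product]
    refine Finset.sum_congr rfl fun s _ => ?_
    rw [Finset.sum_comm]
  rw [← hM, h1, ← hB]
  have h2 : ∀ s ∈ Icc 1 z, ∀ q' ∈ Icc 1 z ×ˢ Icc 1 z, |∑ v ∈ Icc 1 M,
        G u (s * v * (q'.1 * q'.2)) * (P s v * Q q'.1 q'.2)| ≤ B := by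
    rintro s hs1 ⟨x, y⟩ hs1'
    rw [Finset.mem_product] at hs1'
    simp only [Finset.mem_Icc] at hs1 hs1' ⊢
    obtain ⟨⟨hx1, hx2⟩, hy1, hy2⟩ := hs1'
    have hn1 : 1 ≤ s * (x * y) := Nat.mul_pos hs1.1 (Nat.mul_pos hx1 hy1)
    have hn2 : ((s * (x * y) : ℕ) : ℝ) ≤ (z : ℝ) ^ 3 := by
      have : s * (x * y) ≤ z ^ 3 := by
        calc s * (x * y) ≤ z * (z * z) := Nat.mul_le_mul hs1.2 (Nat.mul_le_mul hx2 hy2)
          _ = z ^ 3 := by ring
      exact_mod_cast this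
    have hsz : (s : ℝ) ≤ z := by exact_mod_cast hs1.2
    have hz34 : (z : ℝ) ^ 3 ≤ z ^ 4 := pow_le_pow_right₀ hz1 (by norm_num)
    by_cases hn : osf (s * (x * y))
    swap
    · rw [Finset.sum_eq_zero]
      · rw [abs_zero]
        positivity
      · intro v _
        rw [show s * v * (x * y) = s * (x * y) * v by ring, G_not u _ _ hn, zero_mul]
    have hn' := hn
    rw [osf_mul] at hn'
    obtain ⟨-, ho, -⟩ := hn'
    have h3 : ∑ v ∈ Icc 1 M, G u (s * v * (x * y)) * (P s v * Q x y) =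
        κ s * Q x y * ∑ v ∈ Icc 1 M,
          (G u (s * (x * y) * v) * J (D s) v) * (1 - if v = 1 then b else 0) := by
      rw [Finset.mul_sum]
      refine Finset.sum_congr rfl fun v _ => ?_
      rw [show s * v * (x * y) = s * (x * y) * v by ring]
      by_cases h4 : osf (s * (x * y) * v)
      · have h5 := h4
        rw [osf_mul] at h5
        rw [hPe s v ho h5.2.2]
        ring
      · have h5 : G u (s * (x * y) * v) = 0 := by
          unfold G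
          rw [if_neg h4]
        rw [h5]
        ring
    rw [h3]
    by_cases hk : κ s = 0
    · rw [hk, zero_mul, zero_mul, abs_zero]
      exact hB0
    obtain ⟨d1, d2, d3⟩ := hD s ho hk
    have d4 : |(D s : ℝ)| ≤ (u / 2) ^ A := by linarith
    have hnu : ((s * (x * y) : ℕ) : ℝ) ≤ Real.exp (u / 2) := by linarith
    have e1 := in1 hC hs u hu (D s) (s * (x * y)) hn1 hnu d1 d3 d4
    have e0 : G u (s * (x * y)) = 0 := G_small (by linarith)
    rw [← hM, ← hB] at e1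
    rw [exp1 M hM1 (fun v => G u (s * (x * y) * v) * J (D s) v) b]
    rw [mul_one (s * (x * y)), e0, zero_mul, mul_zero, sub_zero, abs_mul]
    have hκκ : |κ s * Q x y| ≤ 1 := by
      rw [abs_mul]
      exact mul_le_one₀ (hκ s) (abs_nonneg _) (hQ x y)
    calc _ ≤ 1 * B := mul_le_mul hκκ e1 (abs_nonneg _) zero_le_one
      _ = B := one_mul _
  refine (Finset.abs_sum_le_sum_abs _ _).trans ?_
  have h3 : ∀ s ∈ Icc 1 z, |∑ q' ∈ Icc 1 z ×ˢ Icc 1 z, ∑ v ∈ Icc 1 M,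
        G u (s * v * (q'.1 * q'.2)) * (P s v * Q q'.1 q'.2)| ≤ (z * z) * B := by
    intro s hs1
    refine (Finset.abs_sum_le_sum_abs _ _).trans ?_
    refine (Finset.sum_le_sum fun s' hs' => h2 s hs1 s' hs').trans ?_
    rw [Finset.sum_const, Finset.card_product, Nat.card_Icc, nsmul_eq_mul, Nat.add_sub_cancel]
    push_cast
    exact le_refl _
  refine (Finset.sum_le_sum h3).trans ?_
  rw [Finset.sum_const, Nat.card_Icc, nsmul_eq_mul, Nat.add_sub_cancel]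
  apply le_of_eq
  ring

/-- no free variable -/
theorem zero {A : ℕ} (P Q : ℕ → ℕ → ℝ) {u : ℝ} {z : ℕ} (hp : Par A z u) :
    ∑ q ∈ Icc 1 z ×ˢ Icc 1 z, ∑ q' ∈ Icc 1 z ×ˢ Icc 1 z,
      G u (q.1 * q.2 * (q'.1 * q'.2)) * (P q.1 q.2 * Q q'.1 q'.2) = 0 := by
  apply Finset.sum_eq_zero
  intro q hq
  apply Finset.sum_eq_zero
  intro q' hq'
  rw [Finset.mem_product, Finset.mem_Icc, Finset.mem_Icc] at hq hq'
  rw [G_small, zero_mul]
  refine lt_of_le_of_lt ?_ hp.h1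
  have : q.1 * q.2 * (q'.1 * q'.2) ≤ z ^ 4 := by
    calc q.1 * q.2 * (q'.1 * q'.2) ≤ z * z * (z * z) :=
          Nat.mul_le_mul (Nat.mul_le_mul hq.1.2 hq.2.2) (Nat.mul_le_mul hq'.1.2 hq'.2.2)
      _ = z ^ 4 := by ring
  exact_mod_cast this

end

end Pool.Agent.Y814.FK
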