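import Pool.Agent.Y814.FK.Sep
import Pool.Agent.Y814.FK.Mod

/-!
Job FK-RD (helper814): local sums of the smooth part. Main theorem `t_RD`.
-/

set_option autoImplicit false

open Finset MeasureTheory Filter
open scoped Classical

namespace Pool.Agent.Y814.FK

open Pool.Agent.Y755.FK

noncomputable section

theorem sI (M z : ℕ) (hz : z ≤ M) (g : ℕ → ℝ) :
    ∑ x ∈ Icc 1 M, g x = ∑ x ∈ Icc 1 z, g x + ∑ x ∈ Ioc z M, g x := by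
  have h : ∀ N : ℕ, Icc 1 N = Ioc 0 N := by
    intro N
    ext k
    simp only [Finset.mem_Icc, Finset.mem_Ioc]
    omega
  rw [h, h, Finset.sum_Ioc_consecutive _ (Nat.zero_le z) hz]

theorem split (M z : ℕ) (hz : z ≤ M) (H : ℕ × ℕ → ℝ) :
    ∑ q ∈ Icc 1 M ×ˢ Icc 1 M, H q = ∑ q ∈ Ioc z M ×ˢ Ioc z M, H q +
      ∑ q ∈ Icc 1 z ×ˢ Icc 1 M, H q + ∑ q ∈ Icc 1 M ×ˢ Icc 1 z, H q -
      ∑ q ∈ Icc 1 z ×ˢ Icc 1 z, H q := by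
  rw [Finset.sum_product, Finset.sum_product, Finset.sum_product, Finset.sum_product,
    Finset.sum_product]
  rw [sI M z hz (fun x => ∑ y ∈ Icc 1 M, H (x, y)), sI M z hz (fun x => ∑ y ∈ Icc 1 z, H (x, y))]
  have h : ∑ x ∈ Ioc z M, ∑ y ∈ Icc 1 M, H (x, y) =
      ∑ x ∈ Ioc z M, ∑ y ∈ Icc 1 z, H (x, y) + ∑ x ∈ Ioc z M, ∑ y ∈ Ioc z M, H (x, y) := by
    rw [← Finset.sum_add_distrib]
    exact Finset.sum_congr rfl fun x _ => sI M z hz _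
  rw [h]
  ring

/-- sums over regions for general terms -/
def SP (P P' : ℕ → ℕ → ℝ) (u : ℝ) (R R' : Finset (ℕ × ℕ)) : ℝ :=
  ∑ q ∈ R, ∑ q' ∈ R', G u (q.1 * q.2 * (q'.1 * q'.2)) * (P q.1 q.2 * P' q'.1 q'.2)

theorem SP_comm (P P' : ℕ → ℕ → ℝ) (u : ℝ) (R R' : Finset (ℕ × ℕ)) :
    SP P P' u R R' = SP P' P u R' R := by
  unfold SP
  rw [Finset.sum_comm]
  refine Finset.sum_congr rfl fun q _ => Finset.sum_congr rfl fun q' _ => ?_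
  rw [mul_comm (q'.1 * q'.2) (q.1 * q.2)]
  ring

theorem SP_swap (P P' : ℕ → ℕ → ℝ) (u : ℝ) (S T : Finset ℕ) (R' : Finset (ℕ × ℕ)) :
    SP P P' u (S ×ˢ T) R' = SP (fun a b => P b a) P' u (T ×ˢ S) R' := by
  unfold SP
  rw [Finset.sum_product, Finset.sum_product, Finset.sum_comm]
  refine Finset.sum_congr rfl fun a _ => Finset.sum_congr rfl fun b _ =>
    Finset.sum_congr rfl fun q' _ => ?_
  simp only
  rw [mul_comm b a]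

theorem SP_split (P P' : ℕ → ℕ → ℝ) (u : ℝ) (M z : ℕ) (hz : z ≤ M) (R' : Finset (ℕ × ℕ)) :
    SP P P' u (Icc 1 M ×ˢ Icc 1 M) R' = SP P P' u (Ioc z M ×ˢ Ioc z M) R' +
      SP P P' u (Icc 1 z ×ˢ Icc 1 M) R' + SP P P' u (Icc 1 M ×ˢ Icc 1 z) R' -
      SP P P' u (Icc 1 z ×ˢ Icc 1 z) R' := by
  unfold SP
  exact split M z hz _

theorem total_bd {C Cw : ℝ} {K A : ℕ} (hC : 0 ≤ C) (hs : SepR C K) (hCw : 0 ≤ Cw)
    (hw : SWb Cw A) {e f e' f' : ℤ} (he : e ∈ KK) (hf : f ∈ KK) (he' : e' ∈ KK) (hf' : f' ∈ KK)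
    {u : ℝ} {z : ℕ} (hp : Par A z u) :
    |LR (rr e f e' f') u| ≤
      4 * ((2 * u) ^ 2 * ((3 * u) ^ 2 * (C * (9 * u) ^ K * (z : ℝ) ^ (-(1 / 8) : ℝ)))) +
        16 * ((z : ℝ) ^ 3 * (Cw / (u / 2) ^ A)) := by
  obtain ⟨M, hM⟩ : ∃ M, M = ⌊Real.exp u⌋₊ := ⟨_, rfl⟩
  have hu : 2 ≤ u := hp.hu
  have hz1 : (1 : ℝ) ≤ z := by exact_mod_cast hp.hz
  have hzu : (z : ℝ) ≤ Real.exp u := by
    have h1 : (z : ℝ) ≤ z ^ 4 := by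
      have := pow_le_pow_right₀ hz1 (show 1 ≤ 4 by norm_num)
      simpa using this
    have h2 : Real.exp (u - 1) ≤ Real.exp u := Real.exp_le_exp.2 (by linarith)
    have h3 := hp.h1
    linarith
  have hzM : z ≤ M := by
    rw [hM]
    exact Nat.le_floor hzu
  obtain ⟨b1, hb1⟩ : ∃ b1, b1 =
    (2 * u) ^ 2 * ((3 * u) ^ 2 * (C * (9 * u) ^ K * (z : ℝ) ^ (-(1 / 8) : ℝ))) := ⟨_, rfl⟩
  obtain ⟨B, hB⟩ : ∃ B, B = Cw / (u / 2) ^ A := ⟨_, rfl⟩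
  have hB0 : 0 ≤ B := by
    rw [hB]
    positivity
  rw [← hb1, ← hB]
  have hLR : LR (rr e f e' f') u =
      SP (Pf e f) (Pf e' f') u (Icc 1 M ×ˢ Icc 1 M) (Icc 1 M ×ˢ Icc 1 M) := by
    rw [LR_rr, ← hM]
    unfold SP
    rw [Finset.sum_product]
    refine Finset.sum_congr rfl fun x _ => Finset.sum_congr rfl fun y _ => ?_
    rw [Finset.sum_product]
  have hII : Icc 1 M ×ˢ Icc 1 M ⊆ Icc 1 M ×ˢ Icc 1 M := Finset.Subset.refl _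
  have hSz : Icc 1 z ⊆ Icc 1 M := Finset.Icc_subset_Icc_right hzM
  have hL : ∀ (e f e' f' : ℤ) (R' : Finset (ℕ × ℕ)), R' ⊆ Icc 1 M ×ˢ Icc 1 M →
      |SP (Pf e f) (Pf e' f') u (Ioc z M ×ˢ Ioc z M) R'| ≤ b1 := by
    intro e f e' f' R' hR'
    rw [hb1, hM]
    exact SS_LL hC hs e f e' f' u (by linarith) z hp.hz hzu R' (hM ▸ hR')
  have h2 : ∀ {P P' : ℕ → ℕ → ℝ}, Md P → Md P' →
      |SP P P' u (Icc 1 z ×ˢ Icc 1 M) (Icc 1 z ×ˢ Icc 1 M)| ≤ (z : ℝ) ^ 2 * (3 * B) := by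
    intro P P' hP hP'
    rw [hB, hM]
    exact two hCw hw hP hP' hp
  have h1 : ∀ {P Q : ℕ → ℕ → ℝ}, Md P → (∀ x y, |Q x y| ≤ 1) →
      |SP P Q u (Icc 1 z ×ˢ Icc 1 M) (Icc 1 z ×ˢ Icc 1 z)| ≤ (z : ℝ) ^ 3 * B := by
    intro P Q hP hQ
    rw [hB, hM]
    exact one hCw hw hP hQ hp
  have h0 : ∀ P Q : ℕ → ℕ → ℝ, SP P Q u (Icc 1 z ×ˢ Icc 1 z) (Icc 1 z ×ˢ Icc 1 z) = 0 :=
    fun P Q => zero P Q hp
  have k1 : SP (Pf e' f') (Pf e f) u (Icc 1 z ×ˢ Icc 1 M) (Icc 1 M ×ˢ Icc 1 z) =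
      SP (Pf e' f') (fun s v => Pf e f v s) u (Icc 1 z ×ˢ Icc 1 M) (Icc 1 z ×ˢ Icc 1 M) := by
    rw [SP_comm, SP_swap, SP_comm]
  have k2 : SP (Pf e' f') (Pf e f) u (Icc 1 M ×ˢ Icc 1 z) (Icc 1 M ×ˢ Icc 1 z) =
      SP (fun s v => Pf e' f' v s) (fun s v => Pf e f v s) u (Icc 1 z ×ˢ Icc 1 M)
        (Icc 1 z ×ˢ Icc 1 M) := by
    rw [SP_swap, SP_comm, SP_swap, SP_comm]
  have k3 : SP (Pf e' f') (Pf e f) u (Icc 1 M ×ˢ Icc 1 z) (Icc 1 z ×ˢ Icc 1 M) =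
      SP (fun s v => Pf e' f' v s) (Pf e f) u (Icc 1 z ×ˢ Icc 1 M) (Icc 1 z ×ˢ Icc 1 M) := by
    rw [SP_swap]
  have k4 : SP (Pf e' f') (Pf e f) u (Icc 1 M ×ˢ Icc 1 z) (Icc 1 z ×ˢ Icc 1 z) =
      SP (fun s v => Pf e' f' v s) (Pf e f) u (Icc 1 z ×ˢ Icc 1 M) (Icc 1 z ×ˢ Icc 1 z) := by
    rw [SP_swap]
  have k5 : SP (Pf e' f') (Pf e f) u (Icc 1 z ×ˢ Icc 1 z) (Icc 1 z ×ˢ Icc 1 M) =
      SP (Pf e f) (Pf e' f') u (Icc 1 z ×ˢ Icc 1 M) (Icc 1 z ×ˢ Icc 1 z) := by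
    rw [SP_comm]
  have k6 : SP (Pf e' f') (Pf e f) u (Icc 1 z ×ˢ Icc 1 z) (Icc 1 M ×ˢ Icc 1 z) =
      SP (fun s v => Pf e f v s) (Pf e' f') u (Icc 1 z ×ˢ Icc 1 M) (Icc 1 z ×ˢ Icc 1 z) := by
    rw [SP_comm, SP_swap]
  have a1 := hL e f e' f' _ hII
  have a2 := hL e' f' e f _ (Finset.product_subset_product_left hSz :
    Icc 1 z ×ˢ Icc 1 M ⊆ Icc 1 M ×ˢ Icc 1 M)
  have a3 := hL e' f' e f _ (Finset.product_subset_product_right hSz :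
    Icc 1 M ×ˢ Icc 1 z ⊆ Icc 1 M ×ˢ Icc 1 M)
  have a4 := hL e' f' e f _ (Finset.product_subset_product hSz hSz)
  have mX := MdX e f hf
  have mY := MdY e f he
  have mX' := MdX e' f' hf'
  have mY' := MdY e' f' he'
  have c1 := h2 mX' mX
  have c2 := h2 mX' mY
  have c3 := h2 mY' mX
  have c4 := h2 mY' mY
  have c5 := h1 mX' (Pf_abs e f)
  have c6 := h1 mY' (Pf_abs e f)
  have c7 := h1 mX (Pf_abs e' f')
  have c8 := h1 mY (Pf_abs e' f')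
  have c9 := h0 (Pf e' f') (Pf e f)
  rw [hLR, SP_split _ _ u M z hzM,
    SP_comm _ _ u (Icc 1 z ×ˢ Icc 1 M), SP_comm _ _ u (Icc 1 M ×ˢ Icc 1 z),
    SP_comm _ _ u (Icc 1 z ×ˢ Icc 1 z),
    SP_split (Pf e' f') (Pf e f) u M z hzM (Icc 1 z ×ˢ Icc 1 M),
    SP_split (Pf e' f') (Pf e f) u M z hzM (Icc 1 M ×ˢ Icc 1 z),
    SP_split (Pf e' f') (Pf e f) u M z hzM (Icc 1 z ×ˢ Icc 1 z), k1, k2, k3, k4, k5, k6, c9]
  have hz23 : (z : ℝ) ^ 2 * (3 * B) ≤ 3 * ((z : ℝ) ^ 3 * B) := by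
    have : (z : ℝ) ^ 2 ≤ z ^ 3 := pow_le_pow_right₀ hz1 (by norm_num)
    nlinarith
  rw [abs_le] at *
  constructor
  · linarith [a1.1, a2.1, a3.1, a4.2, c1.1, c2.1, c3.1, c4.1, c5.2, c6.2, c7.2, c8.2]
  · linarith [a1.2, a2.2, a3.2, a4.1, c1.2, c2.2, c3.2, c4.2, c5.1, c6.1, c7.1, c8.1]

theorem par_large (A B : ℕ) (hB : 1 ≤ B) : ∃ u0 : ℝ, 1 ≤ u0 ∧ ∀ u : ℝ, u0 ≤ u →
    Par (A + 24 * B) ((⌊u⌋₊ ^ B) ^ 8) u ∧
      (((⌊u⌋₊ ^ B) ^ 8 : ℕ) : ℝ) ^ (-(1 / 8) : ℝ) ≤ 2 ^ B / u ^ B ∧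
      (((⌊u⌋₊ ^ B) ^ 8 : ℕ) : ℝ) ≤ u ^ (8 * B) := by
  obtain ⟨m, hm⟩ : ∃ m, m = 32 * B + 1 := ⟨_, rfl⟩
  refine ⟨2 ^ m * (m.factorial : ℝ), ?_, ?_⟩
  · have h1 : (1 : ℝ) ≤ 2 ^ m := one_le_pow₀ (by norm_num)
    have h2 : (1 : ℝ) ≤ (m.factorial : ℝ) := by exact_mod_cast Nat.factorial_pos m
    nlinarith
  intro u hu
  have hfac : (1 : ℝ) ≤ (m.factorial : ℝ) := by exact_mod_cast Nat.factorial_pos m
  have h2m : (0 : ℝ) < 2 ^ m := by positivity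
  have hu1 : (2 : ℝ) ^ m ≤ u := by nlinarith
  have hm4 : (2 : ℝ) ^ 4 ≤ 2 ^ m := pow_le_pow_right₀ (by norm_num) (by omega)
  have hu16 : 16 ≤ u := by
    norm_num at hm4
    linarith
  have hu0 : 0 < u := by linarith
  have hU1 : (⌊u⌋₊ : ℝ) ≤ u := Nat.floor_le hu0.le
  have hU2 : u / 2 ≤ ⌊u⌋₊ := by
    have := Nat.lt_floor_add_one u
    linarith
  have hU0 : (0 : ℝ) < ⌊u⌋₊ := by linarith
  have hUn : 1 ≤ ⌊u⌋₊ := by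
    have : (0 : ℕ) < ⌊u⌋₊ := by exact_mod_cast hU0
    omega
  have hzc : (((⌊u⌋₊ ^ B) ^ 8 : ℕ) : ℝ) = ((⌊u⌋₊ : ℝ) ^ B) ^ 8 := by push_cast; rfl
  have hzle : (((⌊u⌋₊ ^ B) ^ 8 : ℕ) : ℝ) ≤ u ^ (8 * B) := by
    rw [hzc, ← pow_mul, mul_comm B 8]
    exact pow_le_pow_left₀ hU0.le hU1 _
  have hz0 : (0 : ℝ) ≤ (((⌊u⌋₊ ^ B) ^ 8 : ℕ) : ℝ) := Nat.cast_nonneg _
  have hexp : u ^ (32 * B) ≤ Real.exp (u / 2) := by
    have h1 := Real.pow_div_factorial_le_exp (u / 2) (by linarith) m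
    refine le_trans ?_ h1
    rw [le_div_iff₀ (by linarith), div_pow, le_div_iff₀ h2m]
    have h2 : u ^ m = u ^ (32 * B) * u := by rw [hm, pow_succ]
    rw [h2]
    have h3 : (0 : ℝ) ≤ u ^ (32 * B) := by positivity
    calc u ^ (32 * B) * (m.factorial : ℝ) * 2 ^ m = u ^ (32 * B) * (2 ^ m * (m.factorial : ℝ)) := by
          ring
      _ ≤ u ^ (32 * B) * u := mul_le_mul_of_nonneg_left hu h3
  refine ⟨⟨?_, by linarith, ?_, ?_, ?_⟩, ?_, hzle⟩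
  · exact Nat.pos_of_ne_zero (by positivity)
  · have h1 : (((⌊u⌋₊ ^ B) ^ 8 : ℕ) : ℝ) ^ 4 ≤ (u ^ (8 * B)) ^ 4 := pow_le_pow_left₀ hz0 hzle 4
    have h2 : (u ^ (8 * B)) ^ 4 = u ^ (32 * B) := by
      rw [← pow_mul]
      congr 1
      ring
    have h3 : Real.exp (u / 2) < Real.exp (u - 1) := Real.exp_lt_exp.2 (by linarith)
    linarith
  · have h1 : (((⌊u⌋₊ ^ B) ^ 8 : ℕ) : ℝ) ^ 3 ≤ (u ^ (8 * B)) ^ 3 := pow_le_pow_left₀ hz0 hzle 3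
    have h2 : (u ^ (8 * B)) ^ 3 = u ^ (24 * B) := by
      rw [← pow_mul]
      congr 1
      ring
    have h3 : u ^ (24 * B) ≤ u ^ (32 * B) := pow_le_pow_right₀ (by linarith) (by omega)
    linarith
  · have h1 : (u / 2) ^ (8 * B + 1) ≤ (u / 2) ^ (A + 24 * B) :=
      pow_le_pow_right₀ (by linarith) (by omega)
    have h2 : 2 * u ^ (8 * B) ≤ (u / 2) ^ (8 * B + 1) := by
      rw [div_pow, le_div_iff₀ (by positivity), pow_succ u]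
      have h3 : (2 : ℝ) ^ (8 * B + 2) ≤ 2 ^ m := pow_le_pow_right₀ (by norm_num) (by omega)
      have h4 : (0 : ℝ) ≤ u ^ (8 * B) := by positivity
      calc 2 * u ^ (8 * B) * 2 ^ (8 * B + 1) = u ^ (8 * B) * 2 ^ (8 * B + 2) := by ring
        _ ≤ u ^ (8 * B) * u := mul_le_mul_of_nonneg_left (by linarith) h4
    linarith
  · have hx : (0 : ℝ) < (⌊u⌋₊ : ℝ) ^ B := by positivity
    rw [hzc, ← Real.rpow_natCast ((⌊u⌋₊ : ℝ) ^ B) 8, ← Real.rpow_mul hx.le]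
    have h1 : (((8 : ℕ) : ℝ) * -(1 / 8) : ℝ) = -1 := by norm_num
    rw [h1, Real.rpow_neg_one]
    have h2 : (u / 2) ^ B ≤ (⌊u⌋₊ : ℝ) ^ B := pow_le_pow_left₀ (by linarith) hU2 B
    have h3 : ((⌊u⌋₊ : ℝ) ^ B)⁻¹ ≤ ((u / 2) ^ B)⁻¹ := by
      apply inv_anti₀ (by positivity) h2
    refine h3.trans (le_of_eq ?_)
    rw [div_pow, inv_div]

theorem LR_small (c : ℕ → ℝ) (u u0 : ℝ) (h : u ≤ u0) :
    |LR c u| ≤ ∑ k ∈ Icc 1 ⌊Real.exp u0⌋₊, |c k| := by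
  unfold LR
  refine (Finset.abs_sum_le_sum_abs _ _).trans ?_
  have h1 : ∀ k ∈ Icc 1 ⌊Real.exp u⌋₊, |c k / k * φ (u - Real.log k)| ≤ |c k| := by
    intro k hk
    rw [Finset.mem_Icc] at hk
    have hk0 : (1 : ℝ) ≤ k := by exact_mod_cast hk.1
    rw [abs_mul, abs_div, Nat.abs_cast]
    calc |c k| / k * |φ (u - Real.log k)| ≤ |c k| / k * 1 :=
          mul_le_mul_of_nonneg_left (phi_abs _) (by positivity)
      _ ≤ |c k| := by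
          rw [mul_one]
          exact div_le_self (abs_nonneg _) hk0
  refine (Finset.sum_le_sum h1).trans ?_
  apply Finset.sum_le_sum_of_subset_of_nonneg
  · apply Finset.Icc_subset_Icc_right
    exact Nat.floor_mono (Real.exp_le_exp.2 h)
  · intro k _ _
    exact abs_nonneg _

theorem swb (h : S_SW) (A : ℕ) : ∃ C : ℝ, 0 ≤ C ∧ SWb C A := by
  obtain ⟨C, hC⟩ := h A
  refine ⟨|C|, abs_nonneg C, fun u n D D' hu hn hD hD' hD1 hD1' hDA hDA' => ?_⟩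
  obtain ⟨h1, h2⟩ := hC u n D D' hu hn hD hD' hD1 hD1' hDA hDA'
  have h3 : C * 2 ^ om n / u ^ A ≤ |C| * 2 ^ om n / u ^ A := by
    have := le_abs_self C
    gcongr
  exact ⟨h1.trans h3, h2.trans h3⟩

/-- job FK-RD -/
theorem t_RD : S_SEP → S_SW → S_RD := by
  intro hsep hsw e f e' f' A he hf he' hf'
  obtain ⟨C, K, hC, hs⟩ := sepR hsep
  obtain ⟨B, hB⟩ : ∃ B, B = A + K + 4 := ⟨_, rfl⟩
  obtain ⟨Cw, hCw, hw⟩ := swb hsw (A + 24 * B)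
  obtain ⟨u0, hu0, hpar⟩ := par_large A B (by omega)
  obtain ⟨S0, hS0⟩ : ∃ S0, S0 = ∑ k ∈ Icc 1 ⌊Real.exp u0⌋₊, |rr e f e' f' k| := ⟨_, rfl⟩
  have hS0' : 0 ≤ S0 := by
    rw [hS0]
    exact Finset.sum_nonneg fun k _ => abs_nonneg _
  obtain ⟨c1, hc1⟩ : ∃ c1, c1 = 144 * C * 9 ^ K * 2 ^ B := ⟨_, rfl⟩
  obtain ⟨c2, hc2⟩ : ∃ c2, c2 = 16 * Cw * 2 ^ (A + 24 * B) := ⟨_, rfl⟩
  have hc1' : 0 ≤ c1 := by
    rw [hc1]
    positivity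
  have hc2' : 0 ≤ c2 := by
    rw [hc2]
    positivity
  refine ⟨S0 * u0 ^ A + c1 + c2, fun u hu => ?_⟩
  have hup : 0 < u := by linarith
  have huA : 0 < u ^ A := by positivity
  rcases le_or_gt u u0 with h | h
  · have h1 := LR_small (rr e f e' f') u u0 h
    rw [← hS0] at h1
    refine h1.trans ?_
    rw [le_div_iff₀ huA]
    have h2 : u ^ A ≤ u0 ^ A := pow_le_pow_left₀ hup.le h A
    have h3 : S0 * u ^ A ≤ S0 * u0 ^ A := mul_le_mul_of_nonneg_left h2 hS0'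
    linarith
  · obtain ⟨hp, hz1, hz2⟩ := hpar u h.le
    obtain ⟨z, hz⟩ : ∃ z, z = (⌊u⌋₊ ^ B) ^ 8 := ⟨_, rfl⟩
    rw [← hz] at hp hz1 hz2
    have h1 := total_bd hC hs hCw hw he hf he' hf' hp
    have h2 : 4 * ((2 * u) ^ 2 * ((3 * u) ^ 2 * (C * (9 * u) ^ K * (z : ℝ) ^ (-(1 / 8) : ℝ)))) ≤
        c1 / u ^ A := by
      calc 4 * ((2 * u) ^ 2 * ((3 * u) ^ 2 * (C * (9 * u) ^ K * (z : ℝ) ^ (-(1 / 8) : ℝ))))
          ≤ 4 * ((2 * u) ^ 2 * ((3 * u) ^ 2 * (C * (9 * u) ^ K * (2 ^ B / u ^ B)))) := by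
            gcongr
        _ = c1 / u ^ A := by
            have h3 : u ^ B = u ^ A * u ^ K * u ^ 4 := by
              rw [hB]
              ring
            rw [h3, hc1, mul_pow, mul_pow, mul_pow]
            field_simp
            ring
    have h3 : 16 * ((z : ℝ) ^ 3 * (Cw / (u / 2) ^ (A + 24 * B))) ≤ c2 / u ^ A := by
      have h4 : (z : ℝ) ^ 3 ≤ u ^ (24 * B) := by
        calc (z : ℝ) ^ 3 ≤ (u ^ (8 * B)) ^ 3 := pow_le_pow_left₀ (Nat.cast_nonneg z) hz2 3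
          _ = u ^ (24 * B) := by
              rw [← pow_mul]
              congr 1
              ring
      calc 16 * ((z : ℝ) ^ 3 * (Cw / (u / 2) ^ (A + 24 * B)))
          ≤ 16 * (u ^ (24 * B) * (Cw / (u / 2) ^ (A + 24 * B))) := by
            have : 0 ≤ Cw / (u / 2) ^ (A + 24 * B) := by positivity
            gcongr
        _ = c2 / u ^ A := by
            rw [hc2, div_pow, pow_add u A (24 * B)]
            field_simp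
    have h4 : c1 / u ^ A + c2 / u ^ A ≤ (S0 * u0 ^ A + c1 + c2) / u ^ A := by
      rw [← add_div]
      apply div_le_div_of_nonneg_right _ huA.le
      have : 0 ≤ S0 * u0 ^ A := by positivity
      linarith
    linarith

end

end Pool.Agent.Y814.FK
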