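import Pool.Agent.Y755.FK.Stm

/-!
Job FK-RD (helper814), first part: the fourfold sum.
-/

set_option autoImplicit false

open Finset MeasureTheory Filter
open scoped Classical

namespace Pool.Agent.Y814.FK

open Pool.Agent.Y755.FK

noncomputable section

theorem phi_abs (v : ℝ) : |φ v| ≤ 1 := by
  unfold φ
  split_ifs with h
  · obtain ⟨h0, h1⟩ := h
    have h2 : 0 ≤ v * (1 - v) := mul_nonneg h0 (by linarith)
    have h3 : v * (1 - v) ≤ 1 := by nlinarith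
    rw [abs_of_nonneg (by positivity)]
    nlinarith
  · simp

theorem phi_neg {v : ℝ} (h : v < 0) : φ v = 0 := by
  unfold φ
  rw [if_neg]
  rintro ⟨h0, -⟩
  linarith

theorem phi_big {v : ℝ} (h : 1 < v) : φ v = 0 := by
  unfold φ
  rw [if_neg]
  rintro ⟨-, h0⟩
  linarith

theorem osf_mul {a b : ℕ} : osf (a * b) ↔ Nat.Coprime a b ∧ osf a ∧ osf b := by
  unfold osf
  rw [Nat.odd_mul, Nat.squarefree_mul_iff]
  tauto

theorem om_mul {a b : ℕ} (h : Nat.Coprime a b) : om (a * b) = om a + om b := by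
  unfold om
  rw [h.primeFactors_mul, Finset.card_union_of_disjoint h.disjoint_primeFactors]

theorem osf_pos {a : ℕ} (h : osf a) : 1 ≤ a := by
  rcases Nat.eq_zero_or_pos a with h0 | h0
  · subst h0
    exact absurd h.1 (by decide)
  · exact h0

/-- the weight of a number -/
def G (u : ℝ) (k : ℕ) : ℝ := if osf k then (1 / 2 : ℝ) ^ om k / k * φ (u - Real.log k) else 0

theorem G_gt {u : ℝ} {k : ℕ} (h : ⌊Real.exp u⌋₊ < k) : G u k = 0 := by
  unfold G
  split_ifs with h1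
  · have h2 : Real.exp u < k := Nat.lt_of_floor_lt h
    have h3 : u < Real.log k := by
      rw [← Real.log_exp u]
      exact Real.log_lt_log (Real.exp_pos u) h2
    rw [phi_neg (by linarith), mul_zero]
  · rfl

theorem G_small {u : ℝ} {k : ℕ} (h : (k : ℝ) < Real.exp (u - 1)) : G u k = 0 := by
  unfold G
  split_ifs with h1
  · have h0 : (0 : ℝ) < k := by exact_mod_cast osf_pos h1
    have h3 : Real.log k < u - 1 := by
      rw [← Real.log_exp (u - 1)]
      exact Real.log_lt_log h0 h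
    rw [phi_big (by linarith), mul_zero]
  · rfl

theorem divsum (M : ℕ) (g : ℕ → ℝ) (hg : ∀ k, M < k → g k = 0) (P : ℕ → ℕ → ℝ) :
    ∑ k ∈ Icc 1 M, g k * ∑ a ∈ k.divisors, P a (k / a) =
      ∑ a ∈ Icc 1 M, ∑ b ∈ Icc 1 M, g (a * b) * P a b := by
  have h1 : ∑ k ∈ Icc 1 M, g k * ∑ a ∈ k.divisors, P a (k / a) =
      ∑ q ∈ (Icc 1 M).sigma (fun k => k.divisors), g q.1 * P q.2 (q.1 / q.2) := by
    rw [Finset.sum_sigma]
    exact Finset.sum_congr rfl fun k _ => Finset.mul_sum _ _ _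
  have h2 : ∑ a ∈ Icc 1 M, ∑ b ∈ Icc 1 M, g (a * b) * P a b =
      ∑ q ∈ ((Icc 1 M) ×ˢ (Icc 1 M)).filter (fun q => q.1 * q.2 ≤ M), g (q.1 * q.2) * P q.1 q.2 := by
    rw [← Finset.sum_product']
    symm
    apply Finset.sum_subset (Finset.filter_subset _ _)
    intro q hq hq'
    rw [Finset.mem_filter] at hq'
    rw [hg _ (by
      by_contra h3
      exact hq' ⟨hq, not_lt.1 h3⟩), zero_mul]
  rw [h1, h2]
  refine Finset.sum_bij' (fun q _ => (q.2, q.1 / q.2)) (fun q _ => ⟨q.1 * q.2, q.1⟩) ?_ ?_ ?_ ?_ ?_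
  · rintro ⟨k, a⟩ hq
    simp only [Finset.mem_sigma, Finset.mem_Icc, Nat.mem_divisors] at hq
    obtain ⟨⟨h3, h4⟩, h5, h6⟩ := hq
    obtain ⟨b, rfl⟩ := h5
    have ha : 0 < a := Nat.pos_of_ne_zero (by rintro rfl; simp at h6)
    have hb : 0 < b := Nat.pos_of_ne_zero (by rintro rfl; simp at h6)
    simp only [Finset.mem_filter, Finset.mem_product, Finset.mem_Icc]
    rw [Nat.mul_div_cancel_left b ha]
    refine ⟨⟨⟨ha, ?_⟩, hb, ?_⟩, h4⟩
    · exact le_trans (Nat.le_mul_of_pos_right a hb) h4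
    · exact le_trans (Nat.le_mul_of_pos_left b ha) h4
  · rintro ⟨a, b⟩ hq
    simp only [Finset.mem_filter, Finset.mem_product, Finset.mem_Icc] at hq
    obtain ⟨⟨⟨h3, h4⟩, h5, h6⟩, h7⟩ := hq
    simp only [Finset.mem_sigma, Finset.mem_Icc, Nat.mem_divisors]
    refine ⟨⟨Nat.mul_pos h3 h5, h7⟩, Dvd.intro _ rfl, ?_⟩
    exact (Nat.mul_pos h3 h5).ne'
  · rintro ⟨k, a⟩ hq
    simp only [Finset.mem_sigma, Finset.mem_Icc, Nat.mem_divisors] at hq
    obtain ⟨-, h5, -⟩ := hq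
    simp only [Nat.mul_div_cancel' h5]
  · rintro ⟨a, b⟩ hq
    simp only [Finset.mem_filter, Finset.mem_product, Finset.mem_Icc] at hq
    simp only [Nat.mul_div_cancel_left b (by omega : 0 < a)]
  · rintro ⟨k, a⟩ hq
    simp only [Finset.mem_sigma, Finset.mem_Icc, Nat.mem_divisors] at hq
    obtain ⟨-, h5, -⟩ := hq
    simp only [Nat.mul_div_cancel' h5]

/-- the term of a pair -/
def Pf (e f : ℤ) (x y : ℕ) : ℝ :=
  if ¬ (x = 1 ∧ f = 1) ∧ ¬ (y = 1 ∧ e = 1) then J e x * J f y * J x y else 0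

theorem cc_eq (e f : ℤ) (m : ℕ) : cc e f m = ∑ a ∈ m.divisors, Pf e f a (m / a) := by
  unfold cc Pf
  rw [Finset.sum_filter]

theorem J_abs (a : ℤ) (n : ℕ) : |J a n| ≤ 1 := by
  unfold J
  rcases jacobiSym.trichotomy a n with h | h | h <;> rw [h] <;> norm_num

theorem Pf_abs (e f : ℤ) (x y : ℕ) : |Pf e f x y| ≤ 1 := by
  unfold Pf
  split_ifs
  · rw [abs_mul, abs_mul]
    have h1 := J_abs e x
    have h2 := J_abs f y
    have h3 := J_abs x y
    have h4 : |J e x| * |J f y| ≤ 1 := mul_le_one₀ h1 (abs_nonneg _) h2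
    exact mul_le_one₀ h4 (abs_nonneg _) h3
  · simp

/-- the fourfold sum -/
theorem LR_rr (e f e' f' : ℤ) (u : ℝ) : LR (rr e f e' f') u =
    ∑ x ∈ Icc 1 ⌊Real.exp u⌋₊, ∑ y ∈ Icc 1 ⌊Real.exp u⌋₊,
      ∑ x' ∈ Icc 1 ⌊Real.exp u⌋₊, ∑ y' ∈ Icc 1 ⌊Real.exp u⌋₊,
        G u (x * y * (x' * y')) * (Pf e f x y * Pf e' f' x' y') := by
  obtain ⟨M, hM⟩ : ∃ M, M = ⌊Real.exp u⌋₊ := ⟨_, rfl⟩
  have hG : ∀ k, M < k → G u k = 0 := fun k hk => G_gt (hM ▸ hk)
  have h1 : LR (rr e f e' f') u = ∑ k ∈ Icc 1 M, G u k *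
      ∑ m ∈ k.divisors, cc e f m * cc e' f' (k / m) := by
    unfold LR
    rw [← hM]
    refine Finset.sum_congr rfl fun k _ => ?_
    unfold rr G
    split_ifs
    · ring
    · ring
  rw [h1, divsum M (G u) hG (fun a b => cc e f a * cc e' f' b), ← hM]
  have h2 : ∀ a ∈ Icc 1 M, ∑ b ∈ Icc 1 M, G u (a * b) * (cc e f a * cc e' f' b) =
      (∑ x' ∈ Icc 1 M, ∑ y' ∈ Icc 1 M, G u (a * (x' * y')) * Pf e' f' x' y') *
        ∑ x ∈ a.divisors, Pf e f x (a / x) := by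
    intro a ha
    rw [Finset.mem_Icc] at ha
    have h3 := divsum M (fun k => G u (a * k)) (fun k hk => hG _ (lt_of_lt_of_le hk
      (Nat.le_mul_of_pos_left k (by omega)))) (fun x' y' => Pf e' f' x' y')
    rw [← h3, Finset.sum_mul]
    refine Finset.sum_congr rfl fun b _ => ?_
    rw [cc_eq e f a, cc_eq e' f' b]
    ring
  rw [Finset.sum_congr rfl h2]
  rw [divsum M (fun a => ∑ x' ∈ Icc 1 M, ∑ y' ∈ Icc 1 M, G u (a * (x' * y')) * Pf e' f' x' y')
    (fun k hk => by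
      apply Finset.sum_eq_zero
      intro x' hx'
      apply Finset.sum_eq_zero
      intro y' hy'
      rw [Finset.mem_Icc] at hx' hy'
      rw [hG _ (lt_of_lt_of_le hk (Nat.le_mul_of_pos_right k (Nat.mul_pos hx'.1 hy'.1))),
        zero_mul]) (fun x y => Pf e f x y)]
  refine Finset.sum_congr rfl fun x _ => Finset.sum_congr rfl fun y _ => ?_
  rw [Finset.sum_mul]
  refine Finset.sum_congr rfl fun x' _ => ?_
  rw [Finset.sum_mul]
  refine Finset.sum_congr rfl fun y' _ => ?_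
  ring

end

end Pool.Agent.Y814.FK
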