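import Pool.Agent.Y814.FK.Bas

/-!
Job FK-RD (helper814), second part: the terms with both variables of a pair large.
-/

set_option autoImplicit false

open Finset MeasureTheory Filter
open scoped Classical

namespace Pool.Agent.Y814.FK

open Pool.Agent.Y755.FK

noncomputable section

/-- weight of a variable -/
def w0 (e : ℤ) (n x : ℕ) : ℝ := if osf x ∧ Nat.Coprime x n then (1 / 2 : ℝ) ^ om x * J e x else 0

theorem w0_abs (e : ℤ) (n x : ℕ) : |w0 e n x| ≤ 1 := by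
  unfold w0
  split_ifs
  · rw [abs_mul]
    have h1 := J_abs e x
    have h2 : |((1 / 2 : ℝ) ^ om x)| ≤ 1 := by
      rw [abs_of_nonneg (by positivity)]
      exact pow_le_one₀ (by norm_num) (by norm_num)
    exact mul_le_one₀ h2 (abs_nonneg _) h1
  · simp

/-- factor of the fixed variables -/
def cn (n : ℕ) : ℝ := if osf n then (1 / 2 : ℝ) ^ om n / n else 0

theorem cn_nonneg (n : ℕ) : 0 ≤ cn n := by
  unfold cn
  split_ifs
  · positivity
  · exact le_refl _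

theorem cn_le (n : ℕ) : cn n ≤ 1 / n := by
  unfold cn
  split_ifs
  · have h2 : (1 / 2 : ℝ) ^ om n ≤ 1 := pow_le_one₀ (by norm_num) (by norm_num)
    gcongr
  · positivity

theorem term_eq (e f : ℤ) (u : ℝ) (n x y : ℕ) (hx : 1 < x) (hy : 1 < y) :
    G u (x * y * n) * Pf e f x y =
      cn n * (w0 e n x / x * (w0 f n y / y) * J x y *
        φ (u - Real.log n - Real.log x - Real.log y)) := by
  have hP : Pf e f x y = J e x * J f y * J x y := by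
    unfold Pf
    rw [if_pos]
    constructor
    · rintro ⟨h, -⟩
      omega
    · rintro ⟨h, -⟩
      omega
  by_cases h : osf (x * y * n)
  · have h1 := h
    rw [osf_mul, osf_mul] at h1
    obtain ⟨h2, ⟨h3, h4, h5⟩, h6⟩ := h1
    have h7 : Nat.Coprime x n := Nat.Coprime.coprime_mul_right h2
    have h8 : Nat.Coprime y n := Nat.Coprime.coprime_mul_left h2
    have hx0 : (x : ℝ) ≠ 0 := by exact_mod_cast (by omega : x ≠ 0)
    have hy0 : (y : ℝ) ≠ 0 := by exact_mod_cast (by omega : y ≠ 0)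
    have hn1 := osf_pos h6
    have hn0 : (n : ℝ) ≠ 0 := by exact_mod_cast (by omega : n ≠ 0)
    have h9 : Real.log ((x * y * n : ℕ) : ℝ) = Real.log x + Real.log y + Real.log n := by
      push_cast
      rw [Real.log_mul (mul_ne_zero hx0 hy0) hn0, Real.log_mul hx0 hy0]
    unfold G cn w0
    rw [if_pos h, if_pos h6, if_pos ⟨h4, h7⟩, if_pos ⟨h5, h8⟩, hP, om_mul h2, om_mul h3, h9,
      pow_add, pow_add, show u - (Real.log x + Real.log y + Real.log n) =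
        u - Real.log n - Real.log x - Real.log y by ring]
    push_cast
    field_simp
  · have h0 : G u (x * y * n) = 0 := by
      unfold G
      rw [if_neg h]
    rw [h0, zero_mul]
    symm
    by_cases h6 : osf n
    swap
    · unfold cn
      rw [if_neg h6, zero_mul]
    by_cases h4 : osf x ∧ Nat.Coprime x n
    swap
    · unfold w0
      rw [if_neg h4]
      ring
    by_cases h5 : osf y ∧ Nat.Coprime y n
    swap
    · unfold w0
      rw [if_neg h5]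
      ring
    have h3 : ¬ Nat.Coprime x y := by
      intro h3
      apply h
      rw [osf_mul, osf_mul]
      exact ⟨Nat.Coprime.mul_left h4.2 h5.2, ⟨h3, h4.1, h5.1⟩, h6⟩
    have h7 : J x y = 0 := by
      unfold J
      have : NeZero y := ⟨by omega⟩
      have h8 : jacobiSym (x : ℤ) y = 0 := by
        rw [jacobiSym.eq_zero_iff_not_coprime]
        rw [Int.gcd_natCast_natCast]
        exact h3
      rw [h8]
      norm_num
    rw [h7]
    ring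

/-- real form of the bilinear estimate -/
def SepR (C : ℝ) (K : ℕ) : Prop := ∀ (X Y : ℕ) (α β : ℕ → ℝ) (u : ℝ), 1 ≤ X → 1 ≤ Y →
  (∀ n, |α n| ≤ 1) → (∀ n, |β n| ≤ 1) →
  |∑ x ∈ (Ioc X (2 * X)).filter osf, ∑ y ∈ (Ioc Y (2 * Y)).filter osf,
      α x * β y * J x y * φ (u - Real.log x - Real.log y)| ≤
    C * (X * Y) * (1 + Real.log (X * Y)) ^ K * ((min X Y : ℕ) : ℝ) ^ (-(1 / 8) : ℝ)

theorem sepR (h : S_SEP) : ∃ (C : ℝ) (K : ℕ), 0 ≤ C ∧ SepR C K := by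
  obtain ⟨C, K, hC, h⟩ := h
  refine ⟨C, K, hC, fun X Y α β u hX hY hα hβ => ?_⟩
  have h1 := h X Y (fun n => (α n : ℂ)) (fun n => (β n : ℂ)) u hX hY
    (fun n => by rw [Complex.norm_real]; exact hα n)
    (fun n => by rw [Complex.norm_real]; exact hβ n)
  have h2 : ∑ x ∈ (Ioc X (2 * X)).filter osf, ∑ y ∈ (Ioc Y (2 * Y)).filter osf,
      (α x : ℂ) * (β y : ℂ) * (J x y : ℂ) * ((φ (u - Real.log x - Real.log y) : ℝ) : ℂ) =
      ((∑ x ∈ (Ioc X (2 * X)).filter osf, ∑ y ∈ (Ioc Y (2 * Y)).filter osf,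
        α x * β y * J x y * φ (u - Real.log x - Real.log y) : ℝ) : ℂ) := by
    push_cast
    rfl
  have h3 : ‖∑ x ∈ (Ioc X (2 * X)).filter osf, ∑ y ∈ (Ioc Y (2 * Y)).filter osf,
      (α x : ℂ) * (β y : ℂ) * (J x y : ℂ) * ((φ (u - Real.log x - Real.log y) : ℝ) : ℂ)‖ ≤
    C * (X * Y) * (1 + Real.log (X * Y)) ^ K * ((min X Y : ℕ) : ℝ) ^ (-(1 / 8) : ℝ) := h1
  rw [h2, Complex.norm_real] at h3
  exact h3

theorem block {C : ℝ} {K : ℕ} (hs : SepR C K) (e f : ℤ) (u : ℝ) (n X Y : ℕ)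
    (hX : 1 ≤ X) (hY : 1 ≤ Y) :
    |∑ x ∈ Ioc X (2 * X), ∑ y ∈ Ioc Y (2 * Y), G u (x * y * n) * Pf e f x y| ≤
      1 / n * (C * (1 + Real.log (X * Y)) ^ K * ((min X Y : ℕ) : ℝ) ^ (-(1 / 8) : ℝ)) := by
  obtain ⟨α, hα⟩ : ∃ α : ℕ → ℝ, α = fun x => if X < x then w0 e n x * (X / x) else 0 := ⟨_, rfl⟩
  obtain ⟨β, hβ⟩ : ∃ β : ℕ → ℝ, β = fun y => if Y < y then w0 f n y * (Y / y) else 0 := ⟨_, rfl⟩
  have hX0 : (0 : ℝ) < X := by exact_mod_cast hX
  have hY0 : (0 : ℝ) < Y := by exact_mod_cast hY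
  have hw : ∀ (g : ℤ) (Z x : ℕ), |if Z < x then w0 g n x * ((Z : ℝ) / x) else 0| ≤ 1 := by
    intro g Z x
    split_ifs with h
    · rw [abs_mul]
      have h1 := w0_abs g n x
      have hx : (0 : ℝ) < x := by exact_mod_cast (by omega : 0 < x)
      have h2 : |((Z : ℝ) / x)| ≤ 1 := by
        rw [abs_of_nonneg (by positivity), div_le_one hx]
        exact_mod_cast h.le
      exact mul_le_one₀ h1 (abs_nonneg _) h2
    · simp
  have h1 := hs X Y α β (u - Real.log n) hX hY (fun x => by rw [hα]; exact hw e X x)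
    (fun y => by rw [hβ]; exact hw f Y y)
  have h2 : ∑ x ∈ Ioc X (2 * X), ∑ y ∈ Ioc Y (2 * Y), G u (x * y * n) * Pf e f x y =
      cn n / (X * Y) * ∑ x ∈ (Ioc X (2 * X)).filter osf, ∑ y ∈ (Ioc Y (2 * Y)).filter osf,
      α x * β y * J x y * φ (u - Real.log n - Real.log x - Real.log y) := by
    rw [Finset.mul_sum, Finset.sum_filter]
    refine Finset.sum_congr rfl fun x hx => ?_
    rw [Finset.mem_Ioc] at hx
    by_cases hx1 : osf x
    · rw [if_pos hx1, Finset.mul_sum, Finset.sum_filter]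
      refine Finset.sum_congr rfl fun y hy => ?_
      rw [Finset.mem_Ioc] at hy
      rw [term_eq e f u n x y (by omega) (by omega)]
      by_cases hy1 : osf y
      · rw [if_pos hy1, hα, hβ]
        simp only
        rw [if_pos hx.1, if_pos hy.1]
        field_simp
      · rw [if_neg hy1]
        have : w0 f n y = 0 := by
          unfold w0
          rw [if_neg (fun h => hy1 h.1)]
        rw [this]
        ring
    · rw [if_neg hx1]
      apply Finset.sum_eq_zero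
      intro y hy
      rw [Finset.mem_Ioc] at hy
      rw [term_eq e f u n x y (by omega) (by omega)]
      have : w0 e n x = 0 := by
        unfold w0
        rw [if_neg (fun h => hx1 h.1)]
      rw [this]
      ring
  rw [h2, abs_mul, abs_of_nonneg (div_nonneg (cn_nonneg n) (by positivity))]
  have h3 : cn n / (X * Y) ≤ 1 / n / (X * Y) := by
    have := cn_le n
    gcongr
  calc cn n / (X * Y) * |∑ x ∈ (Ioc X (2 * X)).filter osf, ∑ y ∈ (Ioc Y (2 * Y)).filter osf,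
      α x * β y * J x y * φ (u - Real.log n - Real.log x - Real.log y)|
      ≤ 1 / n / (X * Y) * (C * (X * Y) * (1 + Real.log (X * Y)) ^ K *
        ((min X Y : ℕ) : ℝ) ^ (-(1 / 8) : ℝ)) :=
        mul_le_mul h3 h1 (abs_nonneg _) (by positivity)
    _ = 1 / n * (C * (1 + Real.log (X * Y)) ^ K * ((min X Y : ℕ) : ℝ) ^ (-(1 / 8) : ℝ)) := by
        field_simp

theorem dyad (z R : ℕ) (h : ℕ → ℝ) :
    ∑ x ∈ Ioc z (z * 2 ^ R), h x =
      ∑ i ∈ range R, ∑ x ∈ Ioc (z * 2 ^ i) (2 * (z * 2 ^ i)), h x := by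
  induction R with
  | zero => simp
  | succ R ih =>
    rw [Finset.sum_range_succ, ← ih]
    have h1 : z ≤ z * 2 ^ R := Nat.le_mul_of_pos_right z (by positivity)
    have h2 : z * 2 ^ R ≤ 2 * (z * 2 ^ R) := by omega
    rw [show z * 2 ^ (R + 1) = 2 * (z * 2 ^ R) by ring]
    rw [Finset.sum_Ioc_consecutive _ h1 h2]

theorem ext_le (z M N : ℕ) (h : M ≤ N) (g : ℕ → ℝ) (hg : ∀ k, M < k → g k = 0) :
    ∑ x ∈ Ioc z M, g x = ∑ x ∈ Ioc z N, g x := by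
  apply Finset.sum_subset (Finset.Ioc_subset_Ioc_right h)
  intro x hx hx'
  apply hg
  rw [Finset.mem_Ioc] at hx hx'
  omega

theorem LLn {C : ℝ} {K : ℕ} (hC : 0 ≤ C) (hs : SepR C K) (e f : ℤ) (u : ℝ) (hu : 1 ≤ u)
    (n z : ℕ) (hn : 1 ≤ n) (hz : 1 ≤ z) (hzu : (z : ℝ) ≤ Real.exp u) :
    |∑ x ∈ Ioc z ⌊Real.exp u⌋₊, ∑ y ∈ Ioc z ⌊Real.exp u⌋₊, G u (x * y * n) * Pf e f x y| ≤
      1 / n * ((3 * u) ^ 2 * (C * (9 * u) ^ K * (z : ℝ) ^ (-(1 / 8) : ℝ))) := by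
  obtain ⟨M, hM⟩ : ∃ M, M = ⌊Real.exp u⌋₊ := ⟨_, rfl⟩
  obtain ⟨R, hR⟩ : ∃ R, R = ⌈2 * u⌉₊ := ⟨_, rfl⟩
  have hG : ∀ k, M < k → G u k = 0 := fun k hk => G_gt (hM ▸ hk)
  have hR1 : 2 * u ≤ R := hR ▸ Nat.le_ceil _
  have hR2 : (R : ℝ) < 2 * u + 1 := hR ▸ Nat.ceil_lt_add_one (by linarith)
  have hlog : (0.69 : ℝ) < Real.log 2 := by
    have := Real.log_two_gt_d9
    linarith
  have hlog' : Real.log 2 < 0.7 := by
    have := Real.log_two_lt_d9
    linarith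
  have hz0 : (0 : ℝ) < z := by exact_mod_cast hz
  have hlz : Real.log z ≤ u := by
    rw [Real.log_le_iff_le_exp hz0]
    exact hzu
  have hlz0 : 0 ≤ Real.log z := Real.log_nonneg (by exact_mod_cast hz)
  have hMR : M ≤ z * 2 ^ R := by
    have h1 : (M : ℝ) ≤ Real.exp u := hM ▸ Nat.floor_le (Real.exp_pos u).le
    have h2 : Real.exp u ≤ (2 : ℝ) ^ R := by
      rw [← Real.exp_log (by positivity : (0 : ℝ) < (2 : ℝ) ^ R), Real.log_pow]
      apply Real.exp_le_exp.2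
      nlinarith
    have h3 : (M : ℝ) ≤ ((z * 2 ^ R : ℕ) : ℝ) := by
      push_cast
      have h4 : (1 : ℝ) * 2 ^ R ≤ z * 2 ^ R := by
        apply mul_le_mul_of_nonneg_right _ (by positivity)
        exact_mod_cast hz
      linarith
    exact_mod_cast h3
  rw [← hM]
  have hpos : ∀ x y : ℕ, 1 ≤ x → 1 ≤ y → x ≤ x * y * n ∧ y ≤ x * y * n := by
    intro x y hx hy
    have h1 : x * y ≤ x * y * n := Nat.le_mul_of_pos_right _ (by omega)
    have h2 : x ≤ x * y := Nat.le_mul_of_pos_right _ (by omega)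
    have h3 : y ≤ x * y := Nat.le_mul_of_pos_left _ (by omega)
    exact ⟨h2.trans h1, h3.trans h1⟩
  have h1 : ∑ x ∈ Ioc z M, ∑ y ∈ Ioc z M, G u (x * y * n) * Pf e f x y =
      ∑ i ∈ range R, ∑ j ∈ range R, ∑ x ∈ Ioc (z * 2 ^ i) (2 * (z * 2 ^ i)),
        ∑ y ∈ Ioc (z * 2 ^ j) (2 * (z * 2 ^ j)), G u (x * y * n) * Pf e f x y := by
    have h2 : ∀ x ∈ Ioc z M, ∑ y ∈ Ioc z M, G u (x * y * n) * Pf e f x y =
        ∑ y ∈ Ioc z (z * 2 ^ R), G u (x * y * n) * Pf e f x y := by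
      intro x hx
      rw [Finset.mem_Ioc] at hx
      apply ext_le z M _ hMR
      intro k hk
      rw [hG _ (lt_of_lt_of_le hk (hpos x k (by omega) (by omega)).2), zero_mul]
    rw [Finset.sum_congr rfl h2]
    rw [Finset.sum_comm]
    have h3 : ∀ y ∈ Ioc z (z * 2 ^ R), ∑ x ∈ Ioc z M, G u (x * y * n) * Pf e f x y =
        ∑ x ∈ Ioc z (z * 2 ^ R), G u (x * y * n) * Pf e f x y := by
      intro y hy
      rw [Finset.mem_Ioc] at hy
      apply ext_le z M _ hMR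
      intro k hk
      rw [hG _ (lt_of_lt_of_le hk (hpos k y (by omega) (by omega)).1), zero_mul]
    rw [Finset.sum_congr rfl h3]
    rw [Finset.sum_comm]
    rw [dyad]
    refine Finset.sum_congr rfl fun i _ => ?_
    rw [Finset.sum_congr rfl fun x _ => dyad z R _, Finset.sum_comm]
  rw [h1]
  have hnr : (0 : ℝ) ≤ 1 / n := by positivity
  have h2 : ∀ i ∈ range R, ∀ j ∈ range R, |∑ x ∈ Ioc (z * 2 ^ i) (2 * (z * 2 ^ i)),
        ∑ y ∈ Ioc (z * 2 ^ j) (2 * (z * 2 ^ j)), G u (x * y * n) * Pf e f x y| ≤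
        1 / n * (C * (9 * u) ^ K * (z : ℝ) ^ (-(1 / 8) : ℝ)) := by
    intro i hi j hj
    rw [Finset.mem_range] at hi hj
    have hi' : (i : ℝ) ≤ 2 * u := by
      have : (i : ℝ) + 1 ≤ R := by exact_mod_cast hi
      linarith
    have hj' : (j : ℝ) ≤ 2 * u := by
      have : (j : ℝ) + 1 ≤ R := by exact_mod_cast hj
      linarith
    have hi0 : (0 : ℝ) ≤ i := Nat.cast_nonneg i
    have hj0 : (0 : ℝ) ≤ j := Nat.cast_nonneg j
    have hX : 1 ≤ z * 2 ^ i := Nat.mul_pos hz (by positivity)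
    have hY : 1 ≤ z * 2 ^ j := Nat.mul_pos hz (by positivity)
    refine (block hs e f u n _ _ hX hY).trans ?_
    have h3 : Real.log (((z * 2 ^ i : ℕ) : ℝ) * ((z * 2 ^ j : ℕ) : ℝ)) =
        (Real.log z + i * Real.log 2) + (Real.log z + j * Real.log 2) := by
      push_cast
      rw [Real.log_mul (by positivity) (by positivity), Real.log_mul (by positivity) (by positivity),
        Real.log_mul (by positivity) (by positivity), Real.log_pow, Real.log_pow]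
    have h4 : 1 + Real.log (((z * 2 ^ i : ℕ) : ℝ) * ((z * 2 ^ j : ℕ) : ℝ)) ≤ 9 * u := by
      rw [h3]
      nlinarith
    have h5 : 0 ≤ 1 + Real.log (((z * 2 ^ i : ℕ) : ℝ) * ((z * 2 ^ j : ℕ) : ℝ)) := by
      rw [h3]
      positivity
    have h6 : ((min (z * 2 ^ i) (z * 2 ^ j) : ℕ) : ℝ) ^ (-(1 / 8) : ℝ) ≤
        (z : ℝ) ^ (-(1 / 8) : ℝ) := by
      apply Real.rpow_le_rpow_of_nonpos hz0 _ (by norm_num)
      have : z ≤ min (z * 2 ^ i) (z * 2 ^ j) :=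
        le_min (Nat.le_mul_of_pos_right z (by positivity))
          (Nat.le_mul_of_pos_right z (by positivity))
      exact_mod_cast this
    apply mul_le_mul_of_nonneg_left _ hnr
    apply mul_le_mul _ h6 (by positivity) (by positivity)
    exact mul_le_mul_of_nonneg_left (pow_le_pow_left₀ h5 h4 K) hC
  have hB : 0 ≤ 1 / (n : ℝ) * (C * (9 * u) ^ K * (z : ℝ) ^ (-(1 / 8) : ℝ)) := by positivity
  refine (Finset.abs_sum_le_sum_abs _ _).trans ?_
  have h3 : ∀ i ∈ range R, |∑ j ∈ range R, ∑ x ∈ Ioc (z * 2 ^ i) (2 * (z * 2 ^ i)),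
        ∑ y ∈ Ioc (z * 2 ^ j) (2 * (z * 2 ^ j)), G u (x * y * n) * Pf e f x y| ≤
        R * (1 / n * (C * (9 * u) ^ K * (z : ℝ) ^ (-(1 / 8) : ℝ))) := by
    intro i hi
    refine (Finset.abs_sum_le_sum_abs _ _).trans ?_
    refine (Finset.sum_le_sum fun j hj => h2 i hi j hj).trans ?_
    rw [Finset.sum_const, Finset.card_range, nsmul_eq_mul]
  refine (Finset.sum_le_sum h3).trans ?_
  rw [Finset.sum_const, Finset.card_range, nsmul_eq_mul]
  have h4 : (R : ℝ) * R ≤ (3 * u) ^ 2 := by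
    have h5 : (R : ℝ) ≤ 3 * u := by linarith
    have h6 : (0 : ℝ) ≤ R := Nat.cast_nonneg R
    nlinarith
  calc (R : ℝ) * (R * (1 / n * (C * (9 * u) ^ K * (z : ℝ) ^ (-(1 / 8) : ℝ))))
      = (R * R) * (1 / n * (C * (9 * u) ^ K * (z : ℝ) ^ (-(1 / 8) : ℝ))) := by ring
    _ ≤ (3 * u) ^ 2 * (1 / n * (C * (9 * u) ^ K * (z : ℝ) ^ (-(1 / 8) : ℝ))) :=
        mul_le_mul_of_nonneg_right h4 hB
    _ = _ := by ring

/-- sums over regions -/
def SS (e f e' f' : ℤ) (u : ℝ) (R R' : Finset (ℕ × ℕ)) : ℝ :=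
  ∑ q ∈ R, ∑ q' ∈ R', G u (q.1 * q.2 * (q'.1 * q'.2)) * (Pf e f q.1 q.2 * Pf e' f' q'.1 q'.2)

theorem SS_comm (e f e' f' : ℤ) (u : ℝ) (R R' : Finset (ℕ × ℕ)) :
    SS e f e' f' u R R' = SS e' f' e f u R' R := by
  unfold SS
  rw [Finset.sum_comm]
  refine Finset.sum_congr rfl fun q _ => Finset.sum_congr rfl fun q' _ => ?_
  rw [mul_comm (q'.1 * q'.2) (q.1 * q.2)]
  ring

theorem harm (u : ℝ) (hu : 1 ≤ u) : ∑ k ∈ Icc 1 ⌊Real.exp u⌋₊, (1 : ℝ) / k ≤ 2 * u := by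
  have h1 := harmonic_le_one_add_log ⌊Real.exp u⌋₊
  have h2 : (harmonic ⌊Real.exp u⌋₊ : ℝ) = ∑ k ∈ Icc 1 ⌊Real.exp u⌋₊, (1 : ℝ) / k := by
    rw [harmonic_eq_sum_Icc]
    push_cast
    refine Finset.sum_congr rfl fun k _ => ?_
    rw [one_div]
  have h3 : (1 : ℝ) ≤ ⌊Real.exp u⌋₊ := by
    have : 1 ≤ ⌊Real.exp u⌋₊ := Nat.one_le_floor_iff _ |>.2 (Real.one_le_exp (by linarith))
    exact_mod_cast this
  have h4 : Real.log ⌊Real.exp u⌋₊ ≤ u := by
    rw [Real.log_le_iff_le_exp (by linarith)]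
    exact Nat.floor_le (Real.exp_pos u).le
  rw [← h2]
  linarith

theorem SS_LL {C : ℝ} {K : ℕ} (hC : 0 ≤ C) (hs : SepR C K) (e f e' f' : ℤ) (u : ℝ) (hu : 1 ≤ u)
    (z : ℕ) (hz : 1 ≤ z) (hzu : (z : ℝ) ≤ Real.exp u) (R' : Finset (ℕ × ℕ))
    (hR' : R' ⊆ Icc 1 ⌊Real.exp u⌋₊ ×ˢ Icc 1 ⌊Real.exp u⌋₊) :
    |SS e f e' f' u (Ioc z ⌊Real.exp u⌋₊ ×ˢ Ioc z ⌊Real.exp u⌋₊) R'| ≤
      (2 * u) ^ 2 * ((3 * u) ^ 2 * (C * (9 * u) ^ K * (z : ℝ) ^ (-(1 / 8) : ℝ))) := by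
  obtain ⟨B, hB⟩ : ∃ B, B = (3 * u) ^ 2 * (C * (9 * u) ^ K * (z : ℝ) ^ (-(1 / 8) : ℝ)) := ⟨_, rfl⟩
  have hB0 : 0 ≤ B := by
    rw [hB]
    positivity
  rw [← hB]
  unfold SS
  rw [Finset.sum_comm]
  refine (Finset.abs_sum_le_sum_abs _ _).trans ?_
  have h1 : ∀ q' ∈ R', |∑ q ∈ Ioc z ⌊Real.exp u⌋₊ ×ˢ Ioc z ⌊Real.exp u⌋₊,
      G u (q.1 * q.2 * (q'.1 * q'.2)) * (Pf e f q.1 q.2 * Pf e' f' q'.1 q'.2)| ≤
      1 / q'.1 * (1 / q'.2) * B := by
    intro q' hq'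
    have h2 := hR' hq'
    rw [Finset.mem_product, Finset.mem_Icc, Finset.mem_Icc] at h2
    have h3 : 1 ≤ q'.1 * q'.2 := Nat.mul_pos h2.1.1 h2.2.1
    have h4 := LLn hC hs e f u hu (q'.1 * q'.2) z h3 hz hzu
    have h5 : ∑ q ∈ Ioc z ⌊Real.exp u⌋₊ ×ˢ Ioc z ⌊Real.exp u⌋₊,
        G u (q.1 * q.2 * (q'.1 * q'.2)) * (Pf e f q.1 q.2 * Pf e' f' q'.1 q'.2) =
        (∑ x ∈ Ioc z ⌊Real.exp u⌋₊, ∑ y ∈ Ioc z ⌊Real.exp u⌋₊,
          G u (x * y * (q'.1 * q'.2)) * Pf e f x y) * Pf e' f' q'.1 q'.2 := by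
      rw [Finset.sum_product, Finset.sum_mul]
      refine Finset.sum_congr rfl fun x _ => ?_
      rw [Finset.sum_mul]
      refine Finset.sum_congr rfl fun y _ => ?_
      ring
    rw [h5, abs_mul, ← hB] at *
    have h6 := Pf_abs e' f' q'.1 q'.2
    have h7 : (0 : ℝ) ≤ 1 / ((q'.1 * q'.2 : ℕ) : ℝ) * B := mul_nonneg (by positivity) hB0
    calc |∑ x ∈ Ioc z ⌊Real.exp u⌋₊, ∑ y ∈ Ioc z ⌊Real.exp u⌋₊,
          G u (x * y * (q'.1 * q'.2)) * Pf e f x y| * |Pf e' f' q'.1 q'.2|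
        ≤ (1 / ((q'.1 * q'.2 : ℕ) : ℝ) * B) * 1 :=
          mul_le_mul h4 h6 (abs_nonneg _) h7
      _ = 1 / q'.1 * (1 / q'.2) * B := by
          push_cast
          rw [mul_one, one_div_mul_one_div]
  refine (Finset.sum_le_sum h1).trans ?_
  have h2 : ∑ q' ∈ R', (1 : ℝ) / q'.1 * (1 / q'.2) * B ≤
      ∑ q' ∈ Icc 1 ⌊Real.exp u⌋₊ ×ˢ Icc 1 ⌊Real.exp u⌋₊, (1 : ℝ) / q'.1 * (1 / q'.2) * B :=
    Finset.sum_le_sum_of_subset_of_nonneg hR' fun q _ _ => by positivity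
  refine h2.trans ?_
  rw [← Finset.sum_mul, Finset.sum_product]
  show (∑ x ∈ Icc 1 ⌊Real.exp u⌋₊, ∑ y ∈ Icc 1 ⌊Real.exp u⌋₊, (1 : ℝ) / x * (1 / y)) * B ≤ _
  rw [← Finset.sum_mul_sum]
  apply mul_le_mul_of_nonneg_right _ hB0
  have h3 := harm u hu
  have h4 : 0 ≤ ∑ k ∈ Icc 1 ⌊Real.exp u⌋₊, (1 : ℝ) / k := Finset.sum_nonneg fun k _ => by positivity
  rw [sq]
  exact mul_le_mul h3 h3 h4 (by linarith)

end

end Pool.Agent.Y814.FK
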